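import Pool.Agent.Work.MP_db9399_ts_helper6.TsiG

/-!
# MP_db9399, TSPLIT: assembly of TSI (helper6)
-/

set_option autoImplicit false

namespace Pool.Agent.Work.MP_db9399_ts.helper6

open Finset Classical
open Pool.Agent.Work.MP_db9399_all (nb)
open Pool.Agent.Work.MP_db9399_clj.helper75 (OO blk nB eE cO lgF scO Shr)

universe u

/-- the offsets -/
noncomputable def offs {W B : Type u} [Fintype W] [Fintype B] (X : Dat W B) (K2 : ℝ)
    (nt : Fin 6 → W → ℝ) (j : Fin 6) : W → ℝ :=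
  if j = 5 then fun _ => 0 else fun x => if X.fr x then K2 - nt j x else 0

theorem stmt_TSI (hOS : Stmt_OSYS.{u}) (hOOF : Stmt_OOF.{u}) (hOFH : Stmt_OFH.{u})
    (hGRP : Stmt_GRP.{u}) (hLGT : Stmt_LGT.{u}) (hPRS : Stmt_PRS.{u}) (hSWP : Stmt_SWP.{u})
    (hSID : Stmt_SID.{u}) (hSHR : Stmt_SHR.{u}) (hBAL : Stmt_BAL.{u}) : Stmt_TSI.{u} := by
  intro πk hπ1 hπ2
  obtain ⟨c1, hc1, hc1', hL⟩ := hLGT πk hπ1 hπ2
  have hδ : 0 < 1 - 3 * πk := by linarith
  obtain ⟨k, hk⟩ : ∃ k : ℕ, 400 / (1 - 3 * πk) ≤ (2 : ℝ) ^ k := by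
    obtain ⟨k, hk⟩ := pow_unbounded_of_one_lt (400 / (1 - 3 * πk)) (by norm_num : (1 : ℝ) < 2)
    exact ⟨k, hk.le⟩
  obtain ⟨c2, hc2, hc2', hO⟩ := hOS k
  obtain ⟨c0, hc0, hc0', hS⟩ := hSHR c1 c2 hc1 hc1' hc2 hc2'
  refine ⟨c0, hc0, hc0', ?_⟩
  intro M C ρ K1 hC hρ hK1
  obtain ⟨Cm, hCm, hSd⟩ := sides hSID
  obtain ⟨C', hC'⟩ : ∃ C', C' = C + 10 := ⟨_, rfl⟩
  have hC'1 : 1 ≤ C' := by rw [hC']; linarith
  obtain ⟨σm, hσm⟩ : ∃ σm, σm = (1 - 3 * πk) / 200 := ⟨_, rfl⟩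
  have hσm0 : 0 < σm := by rw [hσm]; positivity
  obtain ⟨ε1, hε1, e2, e3⟩ : ∃ ε1 : ℝ, 0 < ε1 ∧ ε1 ≤ 1 ∧ 10 * ε1 ≤ ρ * σm := by
    refine ⟨min 1 (ρ * σm / 10), by positivity, min_le_left _ _, ?_⟩
    have : min 1 (ρ * σm / 10) ≤ ρ * σm / 10 := min_le_right _ _
    linarith
  obtain ⟨K2, hK2⟩ : ∃ K2 : ℝ, K2 = 200 * ((M : ℝ) + 1) + 6 := ⟨_, rfl⟩
  have hK20 : 0 ≤ K2 := by rw [hK2]; positivity
  obtain ⟨ρo, hρo, hρo', hρo2⟩ : ∃ ρo : ℝ, 0 < ρo ∧ ρo ≤ 1 ∧ ρo ≤ ρ * σm :=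
    ⟨min 1 (ρ * σm), by positivity, min_le_left _ _, min_le_right _ _⟩
  obtain ⟨CL, ζL, hCL, hζL, hL2⟩ := hL M C' ε1 hC'1 hε1
  obtain ⟨ζO, hζO, hO2⟩ := hOFH M C' (ε1 / 200) K2 hC'1 (by positivity) hK20
  obtain ⟨ζW, hζW, hW2⟩ := hSWP M C' ε1 (σm / 4) (2 * K2) hC'1 hε1 (by positivity) (by linarith)
  obtain ⟨ρ1, ρ5, hρ1, hρ1', hρ5, hρ5', dOS, hOS2⟩ := hO 3 (8 * C') K1 ρo (by norm_num)
    (by positivity) hK1 hρo hρo'
  obtain ⟨ζ0, hζ0, z1, z2, z3, z4, z5⟩ : ∃ ζ0 : ℝ, 0 < ζ0 ∧ ζ0 ≤ ζL ∧ ζ0 ≤ ζO ∧ ζ0 ≤ ζW ∧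
      ζ0 ≤ 1 / 64 ∧ Cm * ζ0 ≤ ε1 := by
    refine ⟨min (min ζL ζO) (min ζW (min (1 / 64) (ε1 / Cm))), by positivity, ?_, ?_, ?_, ?_, ?_⟩
    · exact (min_le_left _ _).trans (min_le_left _ _)
    · exact (min_le_left _ _).trans (min_le_right _ _)
    · exact (min_le_right _ _).trans (min_le_left _ _)
    · exact (min_le_right _ _).trans ((min_le_right _ _).trans (min_le_left _ _))
    · have h : min (min ζL ζO) (min ζW (min (1 / 64) (ε1 / Cm))) ≤ ε1 / Cm :=
        (min_le_right _ _).trans ((min_le_right _ _).trans (min_le_right _ _))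
      rw [le_div_iff₀ hCm] at h
      linarith
  refine ⟨2 * (CL + Cm), ζ0, by positivity, hζ0, ?_⟩
  intro c A hc hc' hA
  obtain ⟨AL, hAL⟩ : ∃ AL : ℝ, AL = max A 6 + 3 := ⟨_, rfl⟩
  have hA6 : A ≤ max A 6 := le_max_left _ _
  have h66 : 6 ≤ max A 6 := le_max_right _ _
  obtain ⟨dOOF, hOOF2⟩ := hOOF k ρo ρ1 ρ5 c2 K1 (c / 40) hρ1 hρ1' hρ5 (by positivity)
  obtain ⟨dG, hG2⟩ := hGRP M C' c hC'1 hc hc'
  obtain ⟨dP, hP2⟩ := hPRS M C' c c1 hC'1 hc hc' hc1 hc1'
  obtain ⟨dS, hS2⟩ := hS M k C' K1 (5 * (2 * K2)) ρo ρ1 ρ5 c hC'1 hc hc'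
  obtain ⟨dB, hB2⟩ := hBAL M C' ε1 c (5 * (2 * K2)) hC'1 hε1 hc
  obtain ⟨dSd, hSd2⟩ := hSd (max A 6) C' (by linarith) hC'1
  obtain ⟨dL, hL3⟩ := hL2 c AL hc hc' (by rw [hAL]; linarith)
  obtain ⟨dO, hO3⟩ := hO2 c hc hc'
  obtain ⟨dW, hW3⟩ := hW2 c hc hc'
  obtain ⟨n1, hn1⟩ := num1 C' hC'1
  obtain ⟨n2, hn2⟩ := num2 (σm / 16) (by positivity)
  obtain ⟨n3, hn3⟩ := num3
  obtain ⟨n4, hn4⟩ := exists_nat_ge C'
  refine ⟨dOS + dOOF + dG + dP + dS + dB + dSd + dL + dO + dW + n1 + n2 + n3 + n4 + 12, ?_⟩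
  intro W B τ _ _ _ X D σ t α hd hE hSh h4 ht ht1 hα
  have hd12 : 12 ≤ X.d := by omega
  have hd1 : 1 ≤ X.d := by omega
  have hd2 : 2 ≤ X.d := by omega
  have hd0 : 0 < X.d := by omega
  have hdR : (0 : ℝ) < X.d := by exact_mod_cast hd0
  have hdC : C' ≤ X.d := hn4.trans (by exact_mod_cast (by omega : n4 ≤ X.d))
  have CC : C ≤ C' := by rw [hC']; linarith
  have hEL : Env X M C' ζL ζL c := Env.mono hE CC z1 z1
  have hEO : Env X M C' ζO ζO c := Env.mono hE CC z2 z2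
  have hEW : Env X M C' ζW ζW c := Env.mono hE CC z3 z3
  have hE64 : Env X M C' (1 / 64) (1 / 64) c := Env.mono hE CC z4 z4
  have hE1 : Env X M C' 1 1 c := Env.mono hE CC (by linarith) (by linarith)
  obtain ⟨hσ1, hσb, hσk⟩ := shc hπ1 hπ2 hSh hd0
  have hσm' : ∀ j, σm ≤ σ j := fun j => by rw [hσm]; exact (hσb j).1
  have hσ0 : ∀ j, 0 ≤ σ j := fun j => hσm0.le.trans (hσm' j)
  -- cells
  obtain ⟨bs, fl, hcell⟩ := cells_ex k σ (hσk k hk).1 hσ1 (hσk k hk).2
  -- structure inside O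
  obtain ⟨r1, r2, r3, _⟩ := hO3 X (fun _ => 0) (by omega) hEO
  obtain ⟨Y, MO, MI, M5, hOob, hnt⟩ := hOS2 X σ bs fl (X.rr c) (by omega) hE.reg
    (fun j => ⟨hσ0 j, (hσb j).2⟩) hcell r1 r2 r3
  have hFG : ∀ v w, Y.ar v w → X.FO.Adj v w := fun v w h => (hOob.arF v w).2 (Or.inl h)
  have hFG' : ∀ v w, Y.ar v w → X.G.Adj v w := fun v w h => (hFG v w h).1
  -- groups, shares
  obtain ⟨gr, hGrp, hfas⟩ := hG2 X (t * X.d ^ 2) (by omega) hE1
  obtain ⟨τp, _, Γ, Δ, hGam, hprs⟩ := hP2 X gr t (by omega) hE64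
  -- offsets
  have hoff : ∀ j, OffH X c (ε1 / 200) (offs X K2 (Y.nt k σ bs fl) j) := by
    intro j
    unfold offs
    by_cases hj : j = 5
    · rw [if_pos hj]
      exact off_zero (by positivity)
    · rw [if_neg hj]
      obtain ⟨_, _, _, h⟩ := hO3 X (Y.nt k σ bs fl j) (by omega) hEO
      exact h (fun x => nt_le hOob hj x) fun q => hnt q j hj
  -- tests
  obtain ⟨αN, hαN⟩ : ∃ αN : τ → W → ℝ, αN = fun q v =>
    if X.ty (fun κ => κ = Kd.N) v then α q v else 0 := ⟨_, rfl⟩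
  obtain ⟨αS, hαS⟩ : ∃ αS : τ → W → ℝ, αS = fun q v =>
    if X.ty (fun κ => κ = Kd.S) v then α q v else 0 := ⟨_, rfl⟩
  obtain ⟨αG, hαG⟩ : ∃ αG : B × Fin 3 → W → ℝ, αG = fun q v =>
    if X.bl v = some q.1 ∧ gr v = q.2 then (1 : ℝ) else 0 := ⟨_, rfl⟩
  have szC : ∀ b, ((blk X.bl b).card : ℝ) ≤ C' * X.d := fun b => (hE64.sz b).2
  have bne : ∀ b, (blk X.bl b).Nonempty := by
    intro b
    rw [← card_pos]
    have h1 := (hE64.sz b).1
    have h2 : (0 : ℝ) < ((blk X.bl b).card : ℝ) := by linarith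
    exact_mod_cast h2
  have fam0 : Fam α X.d (max A 6) := Fam.mono hα hA6 hd1
  have famN : Fam αN X.d (max A 6) := by
    rw [hαN]
    exact Fam.res fam0 _
  have famS : Fam αS X.d (max A 6) := by
    rw [hαS]
    exact Fam.res fam0 _
  have famG : Fam αG X.d (max A 6) := by
    rw [hαG]
    exact Fam.mono (grp_fam hdC hd1 szC) (by linarith) hd1
  have famA : Fam (Sum.elim α (Sum.elim αN (Sum.elim αS αG))) X.d AL := by
    have h1 := Fam.sum famS famG hd2
    have h2 := Fam.sum (Fam.mono famN (by linarith : max A 6 ≤ max A 6 + 1) hd1) h1 hd2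
    have h3 := Fam.sum (Fam.mono fam0 (by linarith : max A 6 ≤ max A 6 + 1 + 1) hd1) h2 hd2
    have e : max A 6 + 1 + 1 + 1 = AL := by rw [hAL]; ring
    rw [e] at h3
    exact h3
  have famB1 : FamH X (bet X Y k fl) 10 2 := bet_famH X Y k fl hd12 hE.reg hFG' hOob.out.big
  have famB2 : FamH X (bet X Y.rev k fl) 10 2 :=
    bet_famH X Y.rev k fl hd12 hE.reg (fun v w h => (hFG' w v h).symm) hOob.inn.big
  have famB : FamH X (Sum.elim (bet X Y k fl) (bet X Y.rev k fl)) C' AL :=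
    FamH.mono (FamH.sum famB1 famB2 hd2) (by rw [hC']; linarith) (by rw [hAL]; linarith) hd1
  have hGam' : GamH X gr AL Γ Δ := GamH.mono hGam (by rw [hAL]; linarith) hd1
  -- labels and classes
  obtain ⟨th, pt, cl, hLgt⟩ := hL3 X gr D σ (offs X K2 (Y.nt k σ bs fl))
    (Sum.elim α (Sum.elim αN (Sum.elim αS αG))) (Sum.elim (bet X Y k fl) (bet X Y.rev k fl)) Γ Δ
    (fun b => cc3 (blk X.bl b).card) (fun b => cc2 (blk X.bl b).card) (by omega) hEL hGrp hSh hoff
    famA famB hGam' (fun b _ => ⟨cc3_sum _, fun k => cc3_near _ k⟩)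
    (fun b _ => ⟨cc2_sum _, fun k => (cc2_near _ k).trans (by norm_num)⟩)
  have hPrs : Prs X gr th pt cl c1 t := hprs th pt cl hLgt.sym hLgt.sh
  -- classes inside O
  have hLs : ∀ x, X.h1 x → ∑ j, (X.dl cl j x : ℝ) = X.lg x := by
    intro x hx
    unfold Dat.lg
    rw [← sum_dl hE.bk cl hx.1]
    push_cast
    rfl
  obtain ⟨co, R, hR, hco, hcob, o1, o2, o3, o4, o5, o6⟩ := hOOF2 X D σ bs fl Y MO MI M5
    (fun j => X.dl cl j) (by omega) hE.reg hSh.s hSh.sum hcell hOob hLs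
    (fun x j hx => hLgt.hH x j hx)
    (fun x s j hj => by rw [rc_eq]; exact hLgt.hB (Sum.inl (x, j, s)) j)
    (fun x s j hj => by rw [rc_eq]; exact hLgt.hB (Sum.inr (x, j, s)) j)
  have hcgF : Y.cg (bs 5) ≤ X.FO := by
    intro v w h
    rcases h.2 with h' | h'
    · exact hFG v w h'.1
    · exact (hFG w v h'.1).symm
  have hRF : R ≤ X.FO := hR.trans hcgF
  -- surplus
  have hsur : ∀ x j, X.fr x → j ≠ 5 → D j ≤ X.dO co R j x + X.dl cl j x ∧
      ((X.dO co R j x + X.dl cl j x - D j : ℕ) : ℝ) ≤ 2 * K2 := by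
    intro x j hx hj
    refine surp hE.reg hx.1 (nt := Y.nt k σ bs fl j x) (hSh.s j) hK2 ?_ (o4 x j hx hj)
    have h := hLgt.hF x j hx hj
    unfold offs at h
    rw [if_neg hj, if_pos hx] at h
    exact h
  have hdl : ∀ x j, X.fr x → j ≠ 5 → σm / 4 * X.d ≤ X.dl cl j x := by
    intro x j hx hj
    have h := hLgt.hF x j hx hj
    unfold offs at h
    rw [if_neg hj, if_pos hx] at h
    have h1 := (abs_le.1 h).1
    have h2 := (abs_le.1 (nt_le hOob hj x)).2
    have h3 := hn2 X.d (by omega)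
    have h4 := nO_lg hE.reg hx.1
    have h5 : X.nO x + X.lg x = X.d := by
      unfold Dat.nO Dat.lg
      exact_mod_cast h4
    have h6 := hx.2
    have h7 : (X.d : ℝ) / 2 ≤ X.lg x := by linarith
    have h8 : σm * ((X.d : ℝ) / 2) ≤ σ j * X.lg x :=
      mul_le_mul (hσm' j) h7 (by positivity) (hσ0 j)
    rw [hK2] at h1
    linarith
  -- swaps
  obtain ⟨cl', w1, w2, w3, w4, w5⟩ := hW3 X cl
    (fun j x => if X.fr x ∧ j ≠ 5 then X.dO co R j x + X.dl cl j x - D j else 0) (by omega) hEW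
    hLgt.sym (by
      intro x j hx
      by_cases hj : j = 5
      · simp only [hj, ne_eq, not_true_eq_false, and_false, if_false, Nat.cast_zero]
        linarith
      · rw [if_pos ⟨hx, hj⟩]
        exact (hsur x j hx hj).2) hdl
  have hSwp : Swp X (5 * (2 * K2)) cl cl' := by
    refine ⟨w1, w2, w4, fun b => (w5 b).trans ?_⟩
    nlinarith
  have hfr : ∀ x j, X.fr x → j ≠ 5 → X.dO co R j x + X.dl cl' j x = D j := by
    intro x j hx hj
    have h1 := w3 x j hx hj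
    rw [if_pos ⟨hx, hj⟩] at h1
    have h2 := (hsur x j hx hj).1
    omega
  -- shares
  obtain ⟨τs, τs', _, _, α0, γ0, q1, q2, q3, q4, q5, hshr⟩ := hS2 X gr t σ bs fl Y MO MI M5 th pt cl
    cl' co R (by omega) ht ht1 hE64 hGrp hfas hcell hOob hLgt.sym hLgt.al hPrs hSwp hco hcob hR o5
  -- sides
  have hpow : (X.d : ℝ) ^ (6 : ℝ) ≤ (X.d : ℝ) ^ (max A 6) :=
    Real.rpow_le_rpow_of_exponent_le (by exact_mod_cast hd1) h66
  have tG : ∀ q k, |∑ v with X.kN v, αG q v * ((if pt v = k then 1 else 0) - 1 / 2)| ≤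
      err univ X.d (αG q) := fun q k => hLgt.tN (Sum.inr (Sum.inr (Sum.inr q))) k
  obtain ⟨sd, s1, s2, s3, s4, s5, s6⟩ := hSd2 X gr th pt cl' ζ0 α0 γ0 α (by omega) szC bne hζ0.le
    hE.thn (fun b a _ => hGrp.sz b a) (fun b i a hb => by
      have h := tG (b, a) i
      rw [hαG] at h
      exact gn_lem (fun h => by rw [hb] at h; cases h) (by linarith) hd0 (szC b) (hGrp.sz b a)
        (hn1 X.d (by omega)) h)
    (Fam.mono q1 h66 hd1) fam0 q2 q3 (fun q => (q4 q).trans hpow) (fun v => (q5 v).trans hpow)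
  have hshr' := hshr sd s1
  have hCz : Cm * (ζ0 * X.d) ≤ ε1 * X.d := by
    rw [← mul_assoc]
    exact mul_le_mul_of_nonneg_right z5 hdR.le
  have hbal := hB2 X th pt sd cl cl' co R (by omega) hE64 hLgt.sym hLgt.al hSwp w5 hLgt.row
    (fun b i j x hb => (s4 b i j x hb).trans hCz)
  -- degrees
  have hdeg := degs hE.reg hE.bk hSh.sum hRF o1 o2 o3 o6 (fun x hx j => dl_h1 w2 hx j) hfr
  have hnb : ∀ j x, (nb (X.HH co R cl' j) x).card = X.dO co R j x + X.dl cl' j x :=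
    fun j x => nb_HH co R cl' hco w1 j x
  have hρD : ∀ j, ρ * σm * X.d ≤ ρ * D j := by
    intro j
    rw [hSh.s j, ← mul_assoc]
    exact mul_le_mul_of_nonneg_right (mul_le_mul_of_nonneg_left (hσm' j) hρ.le) hdR.le
  refine ⟨th, pt, sd, X.HH co R cl', fun j => univ.filter fun x => X.bl x = none ∧
    (nb (X.HH co R cl' j) x).card + 1 = D j, ?_, ?_⟩
  · refine ⟨?_, ?_, ?_, ?_, ?_, ?_, ?_, ?_, hshr', ?_, ?_⟩
    · intro j v w h
      rcases h with h | h
      · exact (th_of_O hE.bk h.1.2.1).2 h.1.1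
      · exact h.1.1
    · intro j j' v w hjj h h'
      rcases h with h | h <;> rcases h' with h' | h'
      · exact hjj (h.2.1.symm.trans h'.2.1)
      · exact h'.1.2 h.1.2
      · exact h.1.2 h'.1.2
      · exact hjj (h.2.1.symm.trans h'.2.1)
    · intro j v w h
      rcases h with h | h
      · have hv : X.bl v = none := h.1.2.1
        constructor
        · rintro ⟨b, hb, _⟩
          rw [hv] at hb
          cases hb
        · rintro ⟨b, hb, _⟩
          rw [hv] at hb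
          cases hb
      · by_cases hcl : cl' v w = cl v w
        · have := hLgt.al v w h.1
          rw [← hcl, h.2.1] at this
          exact this
        · have h5 := (w2 v w hcl).1
          rw [h.2.1] at h5
          rw [h5]
          constructor
          · intro _ h'
            generalize th v = a at h'
            fin_cases a <;> simp [cC] at h'
          · intro _ h'
            generalize pt v = a at h'
            fin_cases a <;> simp [cQ] at h'
    · intro j x hx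
      simp only [mem_filter, mem_univ, true_and, OO] at hx ⊢
      exact hx.1
    · intro j x hx hxE
      simp only [mem_filter, mem_univ, true_and, not_and] at hxE
      rcases hdeg x hx j with h | h
      · rw [hnb]
        exact h
      · exact absurd (by rw [hnb]; exact h.1) (hxE hx)
    · intro j x hx
      simp only [mem_filter, mem_univ, true_and] at hx
      exact hx.2
    · intro j v
      have hsub : ∀ x, (X.bl x = none ∧ (nb (X.HH co R cl' j) x).card + 1 = D j) →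
          (j ≠ 5 → x ∈ MO ∪ MI) ∧ (j = 5 → x ∈ M5) := by
        rintro x ⟨hx, hx'⟩
        rcases hdeg x hx j with h | h
        · rw [hnb] at hx'
          omega
        · exact h.2
      have hsubG : nb (X.HH co R cl' j) v ⊆ nb X.G v := by
        intro w hw
        rw [mnb] at hw ⊢
        rcases hw with h | h
        · exact h.1.1
        · exact h.1.1.1
      by_cases hj : j = 5
      · have h1 : nb (X.HH co R cl' j) v ∩ (univ.filter fun x => X.bl x = none ∧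
            (nb (X.HH co R cl' j) x).card + 1 = D j) ⊆ nb X.G v ∩ M5 := by
          intro x hx
          simp only [mem_inter, mem_filter, mem_univ, true_and] at hx ⊢
          exact ⟨hsubG hx.1, (hsub x hx.2).2 hj⟩
        have h2 : ((nb (X.HH co R cl' j) v ∩ (univ.filter fun x => X.bl x = none ∧
            (nb (X.HH co R cl' j) x).card + 1 = D j)).card : ℝ) ≤ ((nb X.G v ∩ M5).card : ℝ) := by
          exact_mod_cast card_le_card h1
        have h3 := hOob.sp5 v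
        have h4 : ρo * X.d ≤ ρ * σm * X.d := mul_le_mul_of_nonneg_right hρo2 hdR.le
        linarith [hρD j]
      · have h1 : nb (X.HH co R cl' j) v ∩ (univ.filter fun x => X.bl x = none ∧
            (nb (X.HH co R cl' j) x).card + 1 = D j) ⊆ nb X.G v ∩ (MO ∪ MI) := by
          intro x hx
          rw [mem_inter, mem_filter] at hx
          rw [mem_inter]
          exact ⟨hsubG hx.1, (hsub x hx.2.2).1 hj⟩
        have h2 : ((nb (X.HH co R cl' j) v ∩ (univ.filter fun x => X.bl x = none ∧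
            (nb (X.HH co R cl' j) x).card + 1 = D j)).card : ℝ) ≤
            ((nb X.G v ∩ (MO ∪ MI)).card : ℝ) := by
          exact_mod_cast card_le_card h1
        have h3 := hOob.sp1 v
        have h4 : ρo * X.d ≤ ρ * σm * X.d := mul_le_mul_of_nonneg_right hρo2 hdR.le
        have h5 : ρ5 * X.d ≤ ρo * X.d := mul_le_mul_of_nonneg_right hρ5' hdR.le
        have h6 : (0 : ℝ) ≤ ((nb X.G v ∩ (MO ∪ MI)).card : ℝ) := Nat.cast_nonneg _
        linarith [hρD j]
    · intro j i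
      refine (hbal j i).trans ?_
      have h4 : 10 * ε1 * X.d ≤ ρ * σm * X.d := mul_le_mul_of_nonneg_right e3 hdR.le
      exact h4.trans (hρD j)
    · intro v hv
      refine le_trans (card_le_card ?_) (o5 v)
      intro w hw
      rw [mem_filter, mnb] at hw
      rw [mnb]
      by_contra hRw
      exact hw.2 (co v w) (Or.inl ⟨hw.1, rfl, (hco v w).symm, hRw⟩)
    · intro v w h
      exact ⟨cl' v w, Or.inr ⟨h, rfl, (w1 v w).symm⟩⟩
  · refine lbo_lem (C1 := CL) (C2 := Cm) hE.reg hE.BG hE.bk hE.opp (fun b => (hE.opk b).1)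
      (fun b hb => (hE.opS b hb).2) h4 (hn3 X.d (by omega)) hCL.le hCm.le bne hLgt.cN hLgt.td
      ?_ ?_ ?_ s2 s3 s5 s6
    · intro q k
      exact hLgt.tK (Sum.inl q) k
    · intro q k
      have h := hLgt.tN (Sum.inr (Sum.inl q)) k
      simp only [Sum.elim_inl, Sum.elim_inr, hαN] at h
      refine h.trans (err_mono univ X.d (a := fun v => if X.ty (fun κ => κ = Kd.N) v then α q v
        else 0) fun v => ?_)
      split_ifs
      · exact le_rfl
      · rw [abs_zero]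
        exact abs_nonneg _
    · intro q k
      have h := hLgt.tN (Sum.inr (Sum.inr (Sum.inl q))) k
      simp only [Sum.elim_inl, Sum.elim_inr, hαS] at h
      refine h.trans (err_mono univ X.d (a := fun v => if X.ty (fun κ => κ = Kd.S) v then α q v
        else 0) fun v => ?_)
      split_ifs
      · exact le_rfl
      · rw [abs_zero]
        exact abs_nonneg _

end Pool.Agent.Work.MP_db9399_ts.helper6
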