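import Pool.Agent.Work.MP_db9399_ts.Shares

/-!
# MP_db9399, TSPLIT, assembly TSI, part A: monotonicity, cells, tests of the noise (helper6)
-/

set_option autoImplicit false

namespace Pool.Agent.Work.MP_db9399_ts.helper6

open Finset Classical
open Pool.Agent.Work.MP_db9399_all (nb)
open Pool.Agent.Work.MP_db9399_clj.helper75 (OO blk nB eE cO lgF scO Shr)

universe u

variable {W B : Type u} [Fintype W] [Fintype B]

/-! ### monotonicity -/

theorem Env.mono {X : Dat W B} {M : ℕ} {C C' ζ ζ' θ θ' c : ℝ} (h : Env X M C ζ θ c)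
    (hC : C ≤ C') (hζ : ζ ≤ ζ') (hθ : θ ≤ θ') : Env X M C' ζ' θ' c where
  reg := h.reg
  BG := h.BG
  bk := h.bk
  opp := h.opp
  opk := h.opk
  opN := h.opN
  opS := h.opS
  rpb := h.rpb
  cl := h.cl
  ixM := h.ixM
  ixi := h.ixi
  sz b := ⟨(h.sz b).1, (h.sz b).2.trans (mul_le_mul_of_nonneg_right hC (Nat.cast_nonneg _))⟩
  out := h.out
  thn v hv := (h.thn v hv).trans (mul_le_mul_of_nonneg_right hζ (Nat.cast_nonneg _))
  v0c q := (h.v0c q).trans (mul_le_mul_of_nonneg_right hθ (Nat.cast_nonneg _))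
  v0n := h.v0n

theorem Fam.mono {τ V : Type u} [Fintype τ] [Fintype V] {a : τ → V → ℝ} {d : ℕ} {A A' : ℝ}
    (h : Fam a d A) (hA : A ≤ A') (hd : 1 ≤ d) : Fam a d A' where
  sp q := (h.sp q).trans (Real.rpow_le_rpow_of_exponent_le (by exact_mod_cast hd) hA)
  mu v := (h.mu v).trans (Real.rpow_le_rpow_of_exponent_le (by exact_mod_cast hd) hA)

theorem rpow_succ_ge {d : ℕ} {A : ℝ} (hd : 2 ≤ d) : 2 * (d : ℝ) ^ A ≤ (d : ℝ) ^ (A + 1) := by
  have h0 : (0 : ℝ) < d := by exact_mod_cast (by omega : 0 < d)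
  have h2 : (2 : ℝ) ≤ d := by exact_mod_cast hd
  rw [Real.rpow_add h0, Real.rpow_one, mul_comm]
  exact mul_le_mul_of_nonneg_left h2 (Real.rpow_nonneg h0.le _)

theorem Fam.sum {τ τ' V : Type u} [Fintype τ] [Fintype τ'] [Fintype V] {a : τ → V → ℝ}
    {b : τ' → V → ℝ} {d : ℕ} {A : ℝ} (ha : Fam a d A) (hb : Fam b d A) (hd : 2 ≤ d) :
    Fam (Sum.elim a b) d (A + 1) where
  sp q := by
    have h1 : (d : ℝ) ^ A ≤ (d : ℝ) ^ (A + 1) :=
      Real.rpow_le_rpow_of_exponent_le (by exact_mod_cast (by omega : 1 ≤ d)) (by linarith)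
    rcases q with q | q
    · exact (ha.sp q).trans h1
    · exact (hb.sp q).trans h1
  mu v := by
    have h1 : (univ.filter fun q : τ ⊕ τ' => Sum.elim a b q v ≠ 0) ⊆
        ((univ.filter fun q => a q v ≠ 0).map ⟨Sum.inl, Sum.inl_injective⟩) ∪
        ((univ.filter fun q => b q v ≠ 0).map ⟨Sum.inr, Sum.inr_injective⟩) := by
      intro q hq
      rcases q with q | q
      · simpa using hq
      · simpa using hq
    have h2 := (card_le_card h1).trans (card_union_le _ _)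
    rw [card_map, card_map] at h2
    have h3 : ((univ.filter fun q : τ ⊕ τ' => Sum.elim a b q v ≠ 0).card : ℝ) ≤
        ((univ.filter fun q => a q v ≠ 0).card : ℝ) + ((univ.filter fun q => b q v ≠ 0).card : ℝ) :=
      by exact_mod_cast h2
    have := ha.mu v
    have := hb.mu v
    have := rpow_succ_ge (A := A) hd
    linarith

/-- restriction of a family -/
theorem Fam.res {τ V : Type u} [Fintype τ] [Fintype V] {a : τ → V → ℝ} {d : ℕ} {A : ℝ}
    (h : Fam a d A) (P : V → Prop) : Fam (fun q v => if P v then a q v else 0) d A where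
  sp q := by
    refine le_trans ?_ (h.sp q)
    norm_cast
    refine card_le_card fun v hv => ?_
    simp only [mem_filter, mem_univ, true_and, ne_eq, ite_eq_right_iff, Classical.not_imp] at hv ⊢
    exact hv.2
  mu v := by
    refine le_trans ?_ (h.mu v)
    norm_cast
    refine card_le_card fun q hq => ?_
    simp only [mem_filter, mem_univ, true_and, ne_eq, ite_eq_right_iff, Classical.not_imp] at hq ⊢
    exact hq.2

theorem GamH.mono {τ : Type u} [Fintype τ] {X : Dat W B} {gr : W → Fin 3} {A A' : ℝ}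
    {Γ : τ → W → W → Prop} {Δ : τ → ℝ} (h : GamH X gr A Γ Δ) (hA : A ≤ A') (hd : 1 ≤ X.d) :
    GamH X gr A' Γ Δ where
  le := h.le
  gr := h.gr
  d1 := h.d1
  d2 := h.d2
  sp q := (h.sp q).trans (Real.rpow_le_rpow_of_exponent_le (by exact_mod_cast hd) hA)
  mu v := (h.mu v).trans (Real.rpow_le_rpow_of_exponent_le (by exact_mod_cast hd) hA)

/-! ### cells -/

theorem cells_ex (k : ℕ) (σ : Fin 6 → ℝ) (h1 : ∀ j, j ≠ 5 → 2 ≤ σ j * 2 ^ k)
    (h2 : ∑ j, σ j = 1) (h3 : 11 ≤ σ 5 * 2 ^ k) : ∃ bs fl, Cells k σ bs fl := by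
  have hm : ∀ j : Fin 6, j ≠ 5 → ∃ m : ℕ, 1 ≤ m ∧ (m : ℝ) + 1 ≤ σ j * 2 ^ k ∧
      σ j * 2 ^ k ≤ m + 2 := by
    intro j hj
    have h := h1 j hj
    have h0 : 2 ≤ ⌊σ j * 2 ^ k⌋₊ := Nat.le_floor (by exact_mod_cast h)
    refine ⟨⌊σ j * 2 ^ k⌋₊ - 1, by omega, ?_, ?_⟩
    · have := Nat.floor_le (by linarith : 0 ≤ σ j * 2 ^ k)
      rw [Nat.cast_sub (by omega)]
      push_cast
      linarith
    · have := (Nat.lt_floor_add_one (σ j * 2 ^ k)).le
      rw [Nat.cast_sub (by omega)]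
      push_cast
      linarith
  obtain ⟨m0, a0, b0, c0⟩ := hm 0 (by decide)
  obtain ⟨m1, a1, b1, c1⟩ := hm 1 (by decide)
  obtain ⟨m2, a2, b2, c2⟩ := hm 2 (by decide)
  obtain ⟨m3, a3, b3, c3⟩ := hm 3 (by decide)
  obtain ⟨m4, a4, b4, c4⟩ := hm 4 (by decide)
  have hs : σ 0 + σ 1 + σ 2 + σ 3 + σ 4 + σ 5 = 1 := by
    rw [← h2, Fin.sum_univ_six]
  have hs' : σ 0 * 2 ^ k + σ 1 * 2 ^ k + σ 2 * 2 ^ k + σ 3 * 2 ^ k + σ 4 * 2 ^ k +
      σ 5 * 2 ^ k = 2 ^ k := by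
    rw [← add_mul, ← add_mul, ← add_mul, ← add_mul, ← add_mul, hs, one_mul]
  have hle : m0 + m1 + m2 + m3 + m4 + 16 ≤ 2 ^ k := by
    have : (m0 : ℝ) + m1 + m2 + m3 + m4 + 16 ≤ 2 ^ k := by linarith
    exact_mod_cast this
  refine ⟨![Ico 0 m0, Ico (m0 + 3) (m0 + 3 + m1), Ico (m0 + m1 + 6) (m0 + m1 + 6 + m2),
    Ico (m0 + m1 + m2 + 9) (m0 + m1 + m2 + 9 + m3),
    Ico (m0 + m1 + m2 + m3 + 12) (m0 + m1 + m2 + m3 + 12 + m4),
    Ico (m0 + m1 + m2 + m3 + m4 + 15) (2 ^ k)],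
    ![Ico m0 (m0 + 3), Ico (m0 + 3 + m1) (m0 + 3 + m1 + 3),
    Ico (m0 + m1 + 6 + m2) (m0 + m1 + 6 + m2 + 3),
    Ico (m0 + m1 + m2 + 9 + m3) (m0 + m1 + m2 + 9 + m3 + 3),
    Ico (m0 + m1 + m2 + m3 + 12 + m4) (m0 + m1 + m2 + m3 + 12 + m4 + 3), ∅], ?_⟩
  constructor
  · intro j
    fin_cases j <;> intro x <;> simp <;> omega
  · intro j
    fin_cases j <;> intro x <;> simp <;> omega
  · intro i j hij
    fin_cases i <;> fin_cases j <;> first | exact absurd rfl hij | skip <;>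
      (rw [Finset.disjoint_left]; intro x; simp; omega)
  · intro i j
    fin_cases i <;> fin_cases j <;> (rw [Finset.disjoint_left]; intro x; simp <;> omega)
  · intro i j hij
    fin_cases i <;> fin_cases j <;> first | exact absurd rfl hij | skip <;>
      (rw [Finset.disjoint_left]; intro x; simp <;> omega)
  · intro j
    fin_cases j <;> simp <;> omega
  · intro j hj
    fin_cases j <;> simp at hj ⊢
  · simp
  · intro j hj
    fin_cases j <;> simp at hj ⊢ <;> constructor <;> linarith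

end Pool.Agent.Work.MP_db9399_ts.helper6
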