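import Pool.Agent.Work.MP_db9399_ts_helper6.TsiA

/-!
# MP_db9399, TSPLIT, assembly TSI, part B: tests of the noise, degrees at `O` (helper6)
-/

set_option autoImplicit false

namespace Pool.Agent.Work.MP_db9399_ts.helper6

open Finset Classical
open Pool.Agent.Work.MP_db9399_all (nb)
open Pool.Agent.Work.MP_db9399_clj.helper75 (OO blk nB eE cO lgF scO Shr)

universe u

variable {W B : Type u} [Fintype W]

theorem mnb {G : SimpleGraph W} {v w : W} : w ∈ nb G v ↔ G.Adj v w := by simp [nb]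

/-! ### the tests of the noise -/

noncomputable def bet [Fintype B] (X : Dat W B) (Y : Arcs W) (k : ℕ) (fl : Fin 6 → Finset ℕ)
    (q : W × Fin 6 × Bool) (y : W) : ℝ :=
  if Y.ar y q.1 ∧ Y.sy y q.1 = q.2.2 ∧ Y.ce y q.1 ∈ fl q.2.1 ∧ X.h1 y then
    1 / Y.oc q.2.2 (range (2 ^ k)) y else 0

variable [Fintype B]

theorem rc_eq (X : Dat W B) (Y : Arcs W) (k : ℕ) (fl : Fin 6 → Finset ℕ) (j : Fin 6) (s : Bool)
    (x : W) (e : W → ℝ) : Y.rc X k fl j s x e = ∑ y, bet X Y k fl (x, j, s) y * e y := by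
  unfold Arcs.rc bet
  rw [sum_filter]
  refine sum_congr rfl fun y _ => ?_
  by_cases h : Y.ar y x ∧ Y.sy y x = s ∧ Y.ce y x ∈ fl j ∧ X.h1 y
  · simp only [if_pos h]
    ring
  · simp only [if_neg h]
    ring

theorem bet_famH (X : Dat W B) (Y : Arcs W) (k : ℕ) (fl : Fin 6 → Finset ℕ) (hd : 12 ≤ X.d)
    (reg : ∀ v, (nb X.G v).card = X.d) (hF : ∀ v w, Y.ar v w → X.G.Adj v w)
    (hb : ∀ x, X.h1 x → ∀ s, (X.d : ℝ) / 10 ≤ Y.oc s (range (2 ^ k)) x) :
    FamH X (bet X Y k fl) 10 2 := by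
  have hd0 : (0 : ℝ) < X.d := by exact_mod_cast (by omega : 0 < X.d)
  have hd12 : (12 : ℝ) ≤ X.d := by exact_mod_cast hd
  have hin : ∀ q y, bet X Y k fl q y ≠ 0 → Y.ar y q.1 ∧ X.h1 y := by
    intro q y h
    by_contra h'
    apply h
    unfold bet
    rw [if_neg]
    exact fun h'' => h' ⟨h''.1, h''.2.2.2⟩
  have hsup : ∀ q y, |bet X Y k fl q y| ≤ 10 / X.d := by
    intro q y
    unfold bet
    split_ifs with h
    · have h1 := hb y h.2.2.2 q.2.2
      have h2 : (0 : ℝ) < X.d / 10 := by positivity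
      have h3 : 0 < Y.oc q.2.2 (range (2 ^ k)) y := lt_of_lt_of_le h2 h1
      rw [abs_of_nonneg (by positivity), show (10 : ℝ) / X.d = 1 / (X.d / 10) by field_simp]
      exact one_div_le_one_div_of_le h2 h1
    · simp
      positivity
  have hsp : ∀ q, (univ.filter fun y => bet X Y k fl q y ≠ 0) ⊆ nb X.G q.1 := by
    intro q y hy
    simp only [mem_filter, mem_univ, true_and] at hy
    exact mnb.2 (hF _ _ (hin q y hy).1).symm
  have hsq : (X.d : ℝ) ^ (2 : ℝ) = (X.d : ℝ) * X.d := by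
    rw [Real.rpow_two, sq]
  refine ⟨⟨?_, ?_⟩, fun q x h => (hin q x h).2, hsup, ?_⟩
  · intro q
    have h1 := card_le_card (hsp q)
    rw [reg] at h1
    rw [hsq]
    have h2 : ((univ.filter fun y => bet X Y k fl q y ≠ 0).card : ℝ) ≤ X.d := by exact_mod_cast h1
    nlinarith
  · intro y
    have h1 : (univ.filter fun q : W × Fin 6 × Bool => bet X Y k fl q y ≠ 0) ⊆
        nb X.G y ×ˢ (univ : Finset (Fin 6 × Bool)) := by
      intro q hq
      simp only [mem_filter, mem_univ, true_and] at hq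
      exact mem_product.2 ⟨mnb.2 (hF _ _ (hin q y hq).1), mem_univ _⟩
    have h2 := card_le_card h1
    rw [card_product, reg] at h2
    have h3 : (univ : Finset (Fin 6 × Bool)).card = 12 := by simp
    rw [h3] at h2
    have h4 : ((univ.filter fun q : W × Fin 6 × Bool => bet X Y k fl q y ≠ 0).card : ℝ) ≤
      X.d * 12 := by exact_mod_cast h2
    rw [hsq]
    nlinarith
  · intro q
    calc ∑ x, |bet X Y k fl q x| = ∑ x ∈ univ.filter (fun y => bet X Y k fl q y ≠ 0),
          |bet X Y k fl q x| := by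
          rw [sum_filter]
          refine sum_congr rfl fun y _ => ?_
          split_ifs with h
          · rfl
          · rw [ne_eq, not_not] at h
            rw [h, abs_zero]
      _ ≤ ∑ x ∈ nb X.G q.1, |bet X Y k fl q x| :=
          sum_le_sum_of_subset_of_nonneg (hsp q) fun _ _ _ => abs_nonneg _
      _ ≤ ∑ x ∈ nb X.G q.1, 10 / (X.d : ℝ) := sum_le_sum fun x _ => hsup q x
      _ = 10 := by
          rw [sum_const, reg, nsmul_eq_mul]
          field_simp

theorem FamH.sum {τ τ' : Type u} [Fintype τ] [Fintype τ'] {X : Dat W B} {β : τ → W → ℝ}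
    {β' : τ' → W → ℝ} {C A : ℝ} (h : FamH X β C A) (h' : FamH X β' C A) (hd : 2 ≤ X.d) :
    FamH X (Sum.elim β β') C (A + 1) where
  fam := Fam.sum h.fam h'.fam hd
  h1 q x := by
    rcases q with q | q
    · exact h.h1 q x
    · exact h'.h1 q x
  sup q x := by
    rcases q with q | q
    · exact h.sup q x
    · exact h'.sup q x
  l1 q := by
    rcases q with q | q
    · exact h.l1 q
    · exact h'.l1 q

theorem FamH.mono {τ : Type u} [Fintype τ] {X : Dat W B} {β : τ → W → ℝ} {C C' A A' : ℝ}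
    (h : FamH X β C A) (hC : C ≤ C') (hA : A ≤ A') (hd : 1 ≤ X.d) : FamH X β C' A' where
  fam := Fam.mono h.fam hA hd
  h1 := h.h1
  sup q x := (h.sup q x).trans (div_le_div_of_nonneg_right hC (Nat.cast_nonneg _))
  l1 q := (h.l1 q).trans hC

/-! ### degrees at `O` -/

omit [Fintype W] [Fintype B] in
theorem th_of_O {X : Dat W B} (bk : ∀ v w, X.Bk.Adj v w → ∃ b, X.bl v = some b ∧
    X.bl w = some (X.op b)) {x w : W} (hx : X.bl x = none) : X.Th.Adj x w ↔ X.G.Adj x w := by
  unfold Dat.Th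
  rw [SimpleGraph.sdiff_adj]
  refine ⟨fun h => h.1, fun h => ⟨h, fun h' => ?_⟩⟩
  obtain ⟨b, hb, _⟩ := bk _ _ h'
  rw [hx] at hb
  exact absurd hb (by simp)

omit [Fintype W] [Fintype B] in
theorem le_of_O {X : Dat W B} (bk : ∀ v w, X.Bk.Adj v w → ∃ b, X.bl v = some b ∧
    X.bl w = some (X.op b)) {x w : W} (hx : X.bl x = none) :
    X.LE x w ↔ X.G.Adj x w ∧ X.bl w ≠ none := by
  unfold Dat.LE
  rw [th_of_O bk hx]
  constructor
  · rintro ⟨h, h'⟩
    exact ⟨h, fun hw => h' ⟨hx, hw⟩⟩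
  · rintro ⟨h, h'⟩
    exact ⟨h, fun h'' => h' h''.2⟩

/-- the light edges at `x` in `O` -/
theorem sum_dl {X : Dat W B} (bk : ∀ v w, X.Bk.Adj v w → ∃ b, X.bl v = some b ∧
    X.bl w = some (X.op b)) (cl : W → W → Fin 6) {x : W} (hx : X.bl x = none) :
    ∑ j, X.dl cl j x = ((nb X.G x).filter fun v => X.bl v ≠ none).card := by
  have h1 : ((nb X.G x).filter fun v => X.bl v ≠ none) = univ.filter fun w => X.LE x w := by
    ext w
    simp only [mem_filter, mnb, mem_univ, true_and, le_of_O bk hx]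
  rw [h1, card_eq_sum_card_fiberwise (f := fun w => cl x w) (t := univ)
    (fun _ _ => mem_coe.2 (mem_univ _))]
  refine sum_congr rfl fun j _ => ?_
  unfold Dat.dl
  rw [filter_filter]

/-- degree in `O` plus number of the light neighbours -/
theorem nO_lg {X : Dat W B} (reg : ∀ v, (nb X.G v).card = X.d) {x : W} (hx : X.bl x = none) :
    (nb X.FO x).card + ((nb X.G x).filter fun v => X.bl v ≠ none).card = X.d := by
  have h1 : nb X.FO x = (nb X.G x).filter fun v => ¬ X.bl v ≠ none := by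
    ext w
    simp only [mem_filter, mnb, Dat.FO, ne_eq, not_not]
    exact ⟨fun h => ⟨h.1, h.2.2⟩, fun h => ⟨h.1, hx, h.2⟩⟩
  rw [h1, add_comm, card_filter_add_card_filter_not, reg]

theorem sum_dO {X : Dat W B} (co : W → W → Fin 6) (R : SimpleGraph W) (hR : R ≤ X.FO) (x : W) :
    ∑ j, X.dO co R j x + (nb R x).card = (nb X.FO x).card := by
  have h1 : ∑ j, X.dO co R j x = ((nb X.FO x).filter fun y => ¬ R.Adj x y).card := by
    rw [card_eq_sum_card_fiberwise (f := fun w => co x w) (t := univ)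
      (fun _ _ => mem_coe.2 (mem_univ _))]
    refine sum_congr rfl fun j _ => ?_
    unfold Dat.dO
    rw [filter_filter]
    congr 1
    ext y
    simp only [mem_filter]
    tauto
  have h2 : nb R x = (nb X.FO x).filter fun y => ¬ ¬ R.Adj x y := by
    ext y
    simp only [mem_filter, mnb, not_not]
    exact ⟨fun h => ⟨hR h, h⟩, fun h => h.2⟩
  rw [h1, h2, card_filter_add_card_filter_not]

/-- the degree of `x` in `O` in the class `j` -/
theorem nb_HH {X : Dat W B} (co : W → W → Fin 6) (R : SimpleGraph W) (cl : W → W → Fin 6)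
    (hco : ∀ v w, co v w = co w v) (hcl : ∀ v w, cl v w = cl w v) (j : Fin 6) (x : W) :
    (nb (X.HH co R cl j) x).card = X.dO co R j x + X.dl cl j x := by
  unfold Dat.dO Dat.dl
  rw [← card_union_of_disjoint]
  · congr 1
    ext w
    simp only [mem_union, mem_filter, mnb, mem_univ, true_and, Dat.HH]
    rw [← hco x w, ← hcl x w]
    tauto
  · rw [Finset.disjoint_left]
    intro w hw hw'
    simp only [mem_filter, mnb, mem_univ, true_and, Dat.FO, Dat.LE] at hw hw'
    exact hw'.1.2 hw.1.2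

end Pool.Agent.Work.MP_db9399_ts.helper6
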