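import Pool.Agent.Work.MP_db9399_ts_helper6.TsiB

/-!
# MP_db9399, TSPLIT, assembly TSI, part C: exact numbers, sides (helper6)
-/

set_option autoImplicit false

namespace Pool.Agent.Work.MP_db9399_ts.helper6

open Finset Classical
open Pool.Agent.Work.MP_db9399_all (nb)
open Pool.Agent.Work.MP_db9399_clj.helper75 (OO blk nB eE cO lgF scO Shr)

universe u

variable {W B : Type u}

/-! ### exact numbers -/

/-- exact numbers of the thirds -/
def cc3 (n : ℕ) (k : Fin 3) : ℕ := if k = 0 then n - 2 * (n / 3) else n / 3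

/-- exact numbers of the parts -/
def cc2 (n : ℕ) (k : Fin 2) : ℕ := if k = 0 then n - n / 2 else n / 2

theorem cc3_sum (n : ℕ) : ∑ k, cc3 n k = n := by
  rw [Fin.sum_univ_three]
  simp [cc3]
  omega

theorem cc2_sum (n : ℕ) : ∑ k, cc2 n k = n := by
  rw [Fin.sum_univ_two]
  simp [cc2]
  omega

theorem cc3_near (n : ℕ) (k : Fin 3) : |(cc3 n k : ℝ) - (n : ℝ) / 3| ≤ 3 := by
  have h1 : n ≤ 3 * (n / 3) + 2 := by omega
  have h2 : 3 * (n / 3) ≤ n := by omega
  have h1' : (n : ℝ) ≤ 3 * ((n / 3 : ℕ) : ℝ) + 2 := by exact_mod_cast h1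
  have h2' : 3 * ((n / 3 : ℕ) : ℝ) ≤ n := by exact_mod_cast h2
  unfold cc3
  split_ifs
  · rw [Nat.cast_sub (by omega), abs_le]
    push_cast
    constructor <;> linarith
  · rw [abs_le]
    constructor <;> linarith

theorem cc2_near (n : ℕ) (k : Fin 2) : |(cc2 n k : ℝ) - (n : ℝ) / 2| ≤ 1 := by
  have h1 : n ≤ 2 * (n / 2) + 1 := by omega
  have h2 : 2 * (n / 2) ≤ n := by omega
  have h1' : (n : ℝ) ≤ 2 * ((n / 2 : ℕ) : ℝ) + 1 := by exact_mod_cast h1
  have h2' : 2 * ((n / 2 : ℕ) : ℝ) ≤ n := by exact_mod_cast h2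
  unfold cc2
  split_ifs
  · rw [Nat.cast_sub (by omega), abs_le]
    constructor <;> linarith
  · rw [abs_le]
    constructor <;> linarith

theorem cc2_le (n : ℕ) (i : Fin 2) : cc2 n i ≤ cc2 n (i + 1) + 1 := by
  fin_cases i <;> simp [cc2] <;> omega

theorem cc2_four {n : ℕ} (h : 4 ∣ n) (i : Fin 2) : cc2 n i = n / 2 ∧ 2 ∣ n / 2 := by
  obtain ⟨m, rfl⟩ := h
  fin_cases i <;> simp [cc2] <;> omega

/-! ### sides -/

/-- names of the sides -/
inductive Sdt (W B : Type u) : Type u where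
  | l (w : W) : Sdt W B
  | r (b : B) (i : Fin 2) : Sdt W B

/-- sides as a sum type -/
def Sdt.eqv (W B : Type u) : W ⊕ (B × Fin 2) ≃ Sdt W B where
  toFun x := Sum.elim Sdt.l (fun p => Sdt.r p.1 p.2) x
  invFun x := match x with
    | Sdt.l w => Sum.inl w
    | Sdt.r b i => Sum.inr (b, i)
  left_inv x := by rcases x with w | ⟨b, i⟩ <;> rfl
  right_inv x := by rcases x with w | ⟨b, i⟩ <;> rfl

noncomputable instance [Fintype W] [Fintype B] : Fintype (Sdt W B) := Fintype.ofEquiv _ (Sdt.eqv W B)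

/-- the side of `v` for SID -/
noncomputable def sds (X : Dat W B) (pt : W → Fin 2) (v : W) : Sdt W B :=
  (X.bl v).elim (Sdt.l v) fun b =>
    if X.kd b = Kd.S then Sdt.l v else Sdt.r b (if X.kd b = Kd.K then 0 else pt v)

theorem sds_inl {X : Dat W B} {pt : W → Fin 2} {v w : W} (h : sds X pt v = Sdt.l w) :
    w = v ∧ (∀ b, X.bl v = some b → X.kd b = Kd.S) := by
  unfold sds at h
  rcases hb : X.bl v with _ | b
  · rw [hb] at h
    simp at h
    exact ⟨h.symm, fun b hb => by simp at hb⟩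
  · rw [hb] at h
    by_cases hk : X.kd b = Kd.S
    · simp [hk] at h
      exact ⟨h.symm, fun b' hb' => by rw [← Option.some.inj hb']; exact hk⟩
    · simp [hk] at h

theorem sds_inr {X : Dat W B} {pt : W → Fin 2} {v : W} {b : B} {i : Fin 2} :
    sds X pt v = Sdt.r b i ↔
      X.bl v = some b ∧ X.kd b ≠ Kd.S ∧ (if X.kd b = Kd.K then 0 else pt v) = i := by
  unfold sds
  rcases hb : X.bl v with _ | b'
  · simp
  · by_cases hk : X.kd b' = Kd.S
    · simp only [Option.elim_some, hk, if_true, Option.some.injEq]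
      constructor
      · intro h
        simp at h
      · rintro ⟨rfl, h, _⟩
        exact absurd hk h
    · simp only [Option.elim_some, hk, if_false, Option.some.injEq, Sdt.r.injEq]
      constructor
      · rintro ⟨rfl, h⟩
        exact ⟨rfl, hk, h⟩
      · rintro ⟨rfl, _, h⟩
        exact ⟨rfl, h⟩

variable [Fintype W]

theorem mTS {X : Dat W B} {v : W} : v ∈ X.TS ↔ ∃ b, X.bl v = some b ∧ X.kd b ≠ Kd.S := by
  unfold Dat.TS Dat.ty
  simp

theorem side_eq [Fintype B] {X : Dat W B} {pt : W → Fin 2} {b : B} {i : Fin 2}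
    (hk : X.kd b ≠ Kd.S) (hi : X.kd b = Kd.K → i = 0) :
    X.TS.filter (fun v => sds X pt v = Sdt.r b i) =
      (blk X.bl b).filter fun v => X.kd b = Kd.K ∨ pt v = i := by
  ext v
  simp only [mem_filter, mTS, sds_inr, blk, mem_univ, true_and]
  constructor
  · rintro ⟨_, h1, h2, h3⟩
    refine ⟨h1, ?_⟩
    by_cases hK : X.kd b = Kd.K
    · exact Or.inl hK
    · rw [if_neg hK] at h3
      exact Or.inr h3
  · rintro ⟨h1, h2⟩
    refine ⟨⟨b, h1, hk⟩, h1, hk, ?_⟩
    by_cases hK : X.kd b = Kd.K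
    · rw [if_pos hK, hi hK]
    · rw [if_neg hK]
      exact h2.resolve_left hK

theorem side_card_le [Fintype B] {X : Dat W B} {pt : W → Fin 2} {C : ℝ} (hC : 1 ≤ C)
    (hd : 1 ≤ X.d) (sz : ∀ b, ((blk X.bl b).card : ℝ) ≤ C * X.d) (i : Sdt W B) :
    ((univ.filter fun v => sds X pt v = i).card : ℝ) ≤ C * X.d := by
  have hd1 : (1 : ℝ) ≤ X.d := by exact_mod_cast hd
  rcases i with w | ⟨b, i⟩
  · have h : (univ.filter fun v => sds X pt v = Sdt.l w) ⊆ {w} := by
      intro v hv
      simp only [mem_filter, mem_univ, true_and] at hv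
      exact mem_singleton.2 (sds_inl hv).1.symm
    have h1 := card_le_card h
    rw [card_singleton] at h1
    have h2 : ((univ.filter fun v => sds X pt v = Sdt.l w).card : ℝ) ≤ 1 := by exact_mod_cast h1
    nlinarith
  · refine le_trans ?_ (sz b)
    norm_cast
    refine card_le_card fun v hv => ?_
    simp only [mem_filter, mem_univ, true_and, sds_inr] at hv
    simp only [blk, mem_filter, mem_univ, true_and]
    exact hv.1

/-- the exact numbers of the sides -/
noncomputable def cnt2 (X : Dat W B) (pt : W → Fin 2) (i : Sdt W B) (x : Bool) : ℕ :=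
  if x then (X.TS.filter fun v => sds X pt v = i).card -
    (X.TS.filter fun v => sds X pt v = i).card / 2 else
      (X.TS.filter fun v => sds X pt v = i).card / 2

theorem cnt2_sum (X : Dat W B) (pt : W → Fin 2) (i : Sdt W B) :
    cnt2 X pt i false + cnt2 X pt i true = (X.TS.filter fun v => sds X pt v = i).card := by
  simp [cnt2]
  omega

theorem cnt2_near (X : Dat W B) (pt : W → Fin 2) (i : Sdt W B) (x : Bool) :
    |(cnt2 X pt i x : ℝ) - ((X.TS.filter fun v => sds X pt v = i).card : ℝ) / 2| ≤ 3 := by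
  set n := (X.TS.filter fun v => sds X pt v = i).card with hn
  have h1 : n ≤ 2 * (n / 2) + 1 := by omega
  have h2 : 2 * (n / 2) ≤ n := by omega
  have h1' : (n : ℝ) ≤ 2 * ((n / 2 : ℕ) : ℝ) + 1 := by exact_mod_cast h1
  have h2' : 2 * ((n / 2 : ℕ) : ℝ) ≤ n := by exact_mod_cast h2
  unfold cnt2
  rw [← hn]
  cases x
  · simp only [Bool.false_eq_true, if_false]
    rw [abs_le]
    constructor <;> linarith
  · simp only [if_true]
    rw [Nat.cast_sub (by omega), abs_le]
    constructor <;> linarith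

/-! ### two labels -/

omit [Fintype W] in
theorem lab2 (S : Finset W) (a : W → ℝ) (p q : W → Prop) [DecidablePred p] [DecidablePred q]
    (μ : ℝ) :
    ∑ v ∈ S, a v * ((if p v ∧ q v then 1 else 0) - μ / 2) =
      ∑ v ∈ S, (if p v then a v else 0) * ((if q v then 1 else 0) - 1 / 2) +
        1 / 2 * ∑ v ∈ S, a v * ((if p v then 1 else 0) - μ) := by
  rw [mul_sum, ← sum_add_distrib]
  refine sum_congr rfl fun v _ => ?_
  by_cases hp : p v <;> by_cases hq : q v <;> simp [hp, hq] <;> ring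

end Pool.Agent.Work.MP_db9399_ts.helper6
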