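import Pool.Agent.Work.MP_db9399_ts_helper6.TsiC

/-!
# MP_db9399, TSPLIT, assembly TSI, part D: application of SID (helper6)
-/

set_option autoImplicit false

namespace Pool.Agent.Work.MP_db9399_ts.helper6

open Finset Classical
open Pool.Agent.Work.MP_db9399_all (nb)
open Pool.Agent.Work.MP_db9399_clj.helper75 (OO blk nB eE cO lgF scO Shr)

universe u

theorem Fam.lab {τ V : Type u} [Fintype τ] [Fintype V] {a : τ → V → ℝ} {d : ℕ} {A : ℝ} {n : ℕ}
    (h : Fam a d A) (P : V → Prop) (L : V → Fin n) :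
    Fam (fun (q : τ × Fin n) v => if P v ∧ L v = q.2 then a q.1 v else 0) d A where
  sp q := by
    refine le_trans ?_ (h.sp q.1)
    norm_cast
    refine card_le_card fun v hv => ?_
    simp only [mem_filter, mem_univ, true_and, ne_eq, ite_eq_right_iff, Classical.not_imp] at hv ⊢
    exact hv.2
  mu v := by
    refine le_trans ?_ (h.mu v)
    norm_cast
    refine card_le_card_of_injOn Prod.fst ?_ ?_
    · intro q hq
      simp only [mem_coe, mem_filter, mem_univ, true_and, ne_eq, ite_eq_right_iff,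
        Classical.not_imp] at hq ⊢
      exact hq.2
    · intro q hq q' hq' hqq
      simp only [mem_coe, mem_filter, mem_univ, true_and, ne_eq, ite_eq_right_iff,
        Classical.not_imp] at hq hq'
      exact Prod.ext hqq (hq.1.2.symm.trans hq'.1.2)

/-- the error of a linear test -/
noncomputable def err {V : Type u} (S : Finset V) (d : ℕ) (a : V → ℝ) : ℝ :=
  Real.log d ^ 2 * (Real.sqrt (∑ v ∈ S, a v ^ 2) + (∑ v ∈ S, |a v|) / d)

theorem err_mono {V : Type u} [Fintype V] (S : Finset V) (d : ℕ) {a a' : V → ℝ}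
    (h : ∀ v, |a v| ≤ |a' v|) : err S d a ≤ err univ d a' := by
  unfold err
  refine mul_le_mul_of_nonneg_left (add_le_add (Real.sqrt_le_sqrt ?_)
    (div_le_div_of_nonneg_right ?_ (Nat.cast_nonneg _))) (sq_nonneg _)
  · calc ∑ v ∈ S, a v ^ 2 ≤ ∑ v ∈ S, a' v ^ 2 := sum_le_sum fun v _ => sq_le_sq.2 (h v)
      _ ≤ ∑ v, a' v ^ 2 := sum_le_sum_of_subset_of_nonneg (subset_univ _) fun _ _ _ => sq_nonneg _
  · calc ∑ v ∈ S, |a v| ≤ ∑ v ∈ S, |a' v| := sum_le_sum fun v _ => h v
      _ ≤ ∑ v, |a' v| := sum_le_sum_of_subset_of_nonneg (subset_univ _) fun _ _ _ => abs_nonneg _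

theorem err_nonneg {V : Type u} (S : Finset V) (d : ℕ) (a : V → ℝ) : 0 ≤ err S d a := by
  unfold err
  have : 0 ≤ ∑ v ∈ S, |a v| := sum_nonneg fun _ _ => abs_nonneg _
  positivity

theorem dl_le_td {W B : Type u} [Fintype W] [Fintype B] (X : Dat W B) (cl : W → W → Fin 6)
    (j : Fin 6) (v : W) : (X.dl cl j v : ℝ) ≤ X.td v := by
  unfold Dat.dl Dat.td
  norm_cast
  refine card_le_card fun w hw => ?_
  simp only [mem_filter, mem_univ, true_and] at hw
  exact mnb.2 hw.1.1

/-- the functionals of the sides -/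
noncomputable def fnl {W B : Type u} [Fintype W] [Fintype B] (X : Dat W B) (cl : W → W → Fin 6)
    (l : Fin 7) (v : W) : ℝ := if h : (l : ℕ) < 6 then X.dl cl ⟨l, h⟩ v else X.td v

/-- maximal thin degree in a block -/
noncomputable def mtd {W B : Type u} [Fintype W] [Fintype B] (X : Dat W B) (b : B) : ℝ :=
  (((blk X.bl b).sup fun v => (nb X.Th v).card : ℕ) : ℝ)

theorem td_le_mtd {W B : Type u} [Fintype W] [Fintype B] {X : Dat W B} {b : B} {v : W}
    (hv : X.bl v = some b) : X.td v ≤ mtd X b := by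
  unfold Dat.td mtd
  have h : v ∈ blk X.bl b := by simp [blk, hv]
  exact_mod_cast le_sup (f := fun v => (nb X.Th v).card) h

theorem mtd_le {W B : Type u} [Fintype W] [Fintype B] {X : Dat W B} {b : B} {z : ℝ}
    (hb : (blk X.bl b).Nonempty) (hz : ∀ v, X.bl v = some b → X.td v ≤ z) : mtd X b ≤ z := by
  obtain ⟨v, hv, h⟩ := exists_mem_eq_sup (blk X.bl b) hb fun v => (nb X.Th v).card
  unfold mtd
  rw [h]
  refine hz v ?_
  simpa [blk] using hv

theorem sides (hS : Stmt_SID.{u}) : ∃ Cm : ℝ, 0 < Cm ∧ ∀ (A C : ℝ), 1 ≤ A → 1 ≤ C → ∃ d0 : ℕ,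
    ∀ {W B τ0 τ1 τ : Type u} [Fintype W] [Fintype B] [Fintype τ0] [Fintype τ1] [Fintype τ]
      (X : Dat W B) (gr : W → Fin 3) (th : W → Fin 3) (pt : W → Fin 2) (cl : W → W → Fin 6)
      (ζ : ℝ) (α0 : τ0 → W → ℝ) (γ0 : τ1 → W → W → ℝ) (α : τ → W → ℝ), d0 ≤ X.d →
      (∀ b, ((blk X.bl b).card : ℝ) ≤ C * X.d) → (∀ b, (blk X.bl b).Nonempty) → 0 ≤ ζ →
      (∀ v, X.bl v ≠ none → X.td v ≤ ζ * X.d) →
      (∀ b a, X.kd b = Kd.K → (X.d : ℝ) / 8 ≤ (((blk X.bl b).filter fun v => gr v = a).card : ℝ)) →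
      (∀ b i a, X.kd b = Kd.N → (X.d : ℝ) ≤
        20 * (((blk X.bl b).filter fun v => pt v = i ∧ gr v = a).card : ℝ)) →
      Fam α0 X.d A → Fam α X.d A → (∀ q v w, 0 ≤ γ0 q v w) →
      (∀ q v w, γ0 q v w ≠ 0 → v ∈ X.TS ∧ w ∈ X.TS ∧ gr v ≠ gr w) →
      (∀ q, ((univ.filter fun v => ∃ w, γ0 q v w ≠ 0 ∨ γ0 q w v ≠ 0).card : ℝ) ≤
        (X.d : ℝ) ^ A) →
      (∀ v, ((univ.filter fun q => ∃ w, γ0 q v w ≠ 0 ∨ γ0 q w v ≠ 0).card : ℝ) ≤
        (X.d : ℝ) ^ A) →
      ∃ sd : W → Bool, SidT X.TS X.d α0 γ0 sd ∧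
        (∀ q x k, |∑ v ∈ X.TS, (if X.kK v ∧ th v = k then α q v else 0) *
          ((if sd v = x then 1 else 0) - 1 / 2)| ≤ err univ X.d (α q)) ∧
        (∀ q x k, |∑ v ∈ X.TS, (if X.ty (fun κ => κ = Kd.N) v ∧ pt v = k then α q v else 0) *
          ((if sd v = x then 1 else 0) - 1 / 2)| ≤ err univ X.d (α q)) ∧
        (∀ b i j x, X.kd b ≠ Kd.S → |∑ v ∈ (blk X.bl b).filter (fun v => X.kd b = Kd.K ∨ pt v = i),
          (X.dl cl j v : ℝ) * ((if sd v = x then 1 else 0) - 1 / 2)| ≤ Cm * (ζ * X.d)) ∧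
        (∀ b i x (z : ℝ), X.kd b ≠ Kd.S → (∀ v, X.bl v = some b → X.td v ≤ z) →
          |∑ v ∈ (blk X.bl b).filter (fun v => X.kd b = Kd.K ∨ pt v = i),
            X.td v * ((if sd v = x then 1 else 0) - 1 / 2)| ≤ Cm * z) ∧
        ∀ b i x, X.kd b = Kd.N → 4 ∣ (blk X.bl b).card →
          ((blk X.bl b).filter fun v => pt v = i).card = (blk X.bl b).card / 2 →
          4 * ((blk X.bl b).filter fun v => pt v = i ∧ sd v = x).card = (blk X.bl b).card := by
  obtain ⟨Cm, hCm, h⟩ := hS 7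
  refine ⟨Cm, hCm, fun A C hA hC => ?_⟩
  obtain ⟨d0, hd0⟩ := h (A + 2) (C + 20) (by linarith) (by linarith)
  refine ⟨max d0 2, ?_⟩
  intro W B τ0 τ1 τ _ _ _ _ _ X gr th pt cl ζ α0 γ0 α hd sz bne hζ thn gK gN fa0 fa g0 g1 g2 g3
  have hd' : d0 ≤ X.d := (le_max_left _ _).trans hd
  have hd2 : 2 ≤ X.d := (le_max_right _ _).trans hd
  have hd1 : 1 ≤ X.d := by omega
  have hdR : (0 : ℝ) < X.d := by exact_mod_cast (by omega : 0 < X.d)
  have hpow : (X.d : ℝ) ^ A ≤ (X.d : ℝ) ^ (A + 2) :=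
    Real.rpow_le_rpow_of_exponent_le (by exact_mod_cast hd1) (by linarith)
  -- functionals
  let U : Fin 7 → Sdt W B → ℝ := fun l i => match i with
    | Sdt.l v => |fnl X cl l v|
    | Sdt.r b _ => if (l : ℕ) < 6 then ζ * X.d else mtd X b
  have hf : ∀ l v, X.bl v ≠ none → |fnl X cl l v| ≤ ζ * X.d := by
    intro l v hv
    have h1 := thn v hv
    have htd : 0 ≤ X.td v := by unfold Dat.td; positivity
    unfold fnl
    split_ifs with hl
    · have h2 := dl_le_td X cl ⟨l, hl⟩ v
      rw [abs_of_nonneg (by positivity)]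
      linarith
    · rw [abs_of_nonneg htd]
      exact h1
  have hU : ∀ l v, |fnl X cl l v| ≤ U l (sds X pt v) := by
    intro l v
    rcases hs : sds X pt v with w | ⟨b, i⟩
    · have := (sds_inl hs).1
      subst this
      exact le_rfl
    · have h1 := (sds_inr.1 hs).1
      by_cases hl : (l : ℕ) < 6
      · show |fnl X cl l v| ≤ if (l : ℕ) < 6 then ζ * X.d else mtd X b
        rw [if_pos hl]
        exact hf l v (by rw [h1]; simp)
      · show |fnl X cl l v| ≤ if (l : ℕ) < 6 then ζ * X.d else mtd X b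
        rw [if_neg hl]
        have htd : 0 ≤ X.td v := by unfold Dat.td; positivity
        unfold fnl
        rw [dif_neg hl, abs_of_nonneg htd]
        exact td_le_mtd h1
  have hU0 : ∀ l i, 0 ≤ U l i := by
    intro l i
    rcases i with w | ⟨b, i⟩
    · exact abs_nonneg _
    · show 0 ≤ if (l : ℕ) < 6 then ζ * X.d else mtd X b
      split_ifs
      · exact mul_nonneg hζ hdR.le
      · exact Nat.cast_nonneg _
  -- groups
  have hgr : ∀ i, (X.TS.filter fun v => sds X pt v = i).Nonempty → ∀ a,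
      (X.d : ℝ) ≤ (C + 20) * ((X.TS.filter fun v => sds X pt v = i ∧ gr v = a).card : ℝ) := by
    intro i hi a
    obtain ⟨v, hv⟩ := hi
    rw [mem_filter, mTS] at hv
    obtain ⟨⟨b, hb, hk⟩, hvi⟩ := hv
    have hi' : i = Sdt.r b (if X.kd b = Kd.K then 0 else pt v) := by
      rw [← hvi, sds_inr]
      exact ⟨hb, hk, rfl⟩
    have hset : X.TS.filter (fun v => sds X pt v = i ∧ gr v = a) =
        ((blk X.bl b).filter fun v' => X.kd b = Kd.K ∨
          pt v' = (if X.kd b = Kd.K then 0 else pt v)).filter fun v => gr v = a := by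
      rw [← side_eq hk (fun h => by rw [if_pos h]), ← hi', filter_filter]
    rw [hset]
    by_cases hK : X.kd b = Kd.K
    · have h1 := gK b a hK
      have h2 : ((blk X.bl b).filter fun v => gr v = a) ⊆ ((blk X.bl b).filter fun v' =>
          X.kd b = Kd.K ∨ pt v' = (if X.kd b = Kd.K then 0 else pt v)).filter
            fun v => gr v = a := by
        intro w hw
        simp only [mem_filter] at hw ⊢
        exact ⟨⟨hw.1, Or.inl hK⟩, hw.2⟩
      have h3 : (((blk X.bl b).filter fun v => gr v = a).card : ℝ) ≤ ((((blk X.bl b).filter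
          fun v' => X.kd b = Kd.K ∨ pt v' = (if X.kd b = Kd.K then 0 else pt v)).filter
            fun v => gr v = a).card : ℝ) := by exact_mod_cast card_le_card h2
      have h4 : (0 : ℝ) ≤ (((blk X.bl b).filter fun v => gr v = a).card : ℝ) := by positivity
      nlinarith
    · have hN : X.kd b = Kd.N := by
        rcases hkb : X.kd b with _ | _ | _
        · exact absurd hkb hK
        · rfl
        · exact absurd hkb hk
      have h1 := gN b (pt v) a hN
      have h2 : ((blk X.bl b).filter fun v' => pt v' = pt v ∧ gr v' = a) ⊆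
          ((blk X.bl b).filter fun v' => X.kd b = Kd.K ∨
            pt v' = (if X.kd b = Kd.K then 0 else pt v)).filter fun v => gr v = a := by
        intro w hw
        rw [mem_filter] at hw
        rw [mem_filter, mem_filter, if_neg hK]
        exact ⟨⟨hw.1, Or.inr hw.2.1⟩, hw.2.2⟩
      have h3 : (((blk X.bl b).filter fun v' => pt v' = pt v ∧ gr v' = a).card : ℝ) ≤
          ((((blk X.bl b).filter fun v' => X.kd b = Kd.K ∨
            pt v' = (if X.kd b = Kd.K then 0 else pt v)).filter fun v => gr v = a).card : ℝ) := by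
        exact_mod_cast card_le_card h2
      have h4 : (0 : ℝ) ≤ (((blk X.bl b).filter fun v' => pt v' = pt v ∧ gr v' = a).card : ℝ) :=
        Nat.cast_nonneg _
      nlinarith
  -- tests
  let αK : τ × Fin 3 → W → ℝ := fun q v => if X.kK v ∧ th v = q.2 then α q.1 v else 0
  let αN : τ × Fin 2 → W → ℝ := fun q v =>
    if X.ty (fun κ => κ = Kd.N) v ∧ pt v = q.2 then α q.1 v else 0
  have hK : Fam αK X.d A := Fam.lab fa X.kK th
  have hN : Fam αN X.d A := Fam.lab fa (X.ty fun κ => κ = Kd.N) pt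
  have hall : Fam (Sum.elim α0 (Sum.elim αK αN)) X.d (A + 2) := by
    have h1 := Fam.sum (Fam.mono fa0 (by linarith : A ≤ A + 1) hd1) (Fam.sum hK hN hd2) hd2
    have e : A + 1 + 1 = A + 2 := by ring
    rw [e] at h1
    exact h1
  have hsz : ∀ i, ((univ.filter fun v => sds X pt v = i).card : ℝ) ≤ (C + 20) * X.d := by
    intro i
    refine (side_card_le hC hd1 sz i).trans ?_
    exact mul_le_mul_of_nonneg_right (by linarith) hdR.le
  obtain ⟨sd, s1, s2, s3, s4⟩ := hd0 X.TS gr (sds X pt) X.d (fnl X cl) U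
    (Sum.elim α0 (Sum.elim αK αN)) γ0 (cnt2 X pt) hd' hsz hgr hU hU0 hall g0 g1
    (fun q => (g2 q).trans hpow) (fun v => (g3 v).trans hpow) (cnt2_sum X pt) (cnt2_near X pt)
  refine ⟨sd, ⟨fun q x => s1 (Sum.inl q) x, s2⟩, ?_, ?_, ?_, ?_, ?_⟩
  · intro q x k
    refine (s1 (Sum.inr (Sum.inl (q, k))) x).trans (err_mono X.TS X.d (a := αK (q, k)) fun v => ?_)
    simp only [αK]
    split_ifs
    · exact le_rfl
    · rw [abs_zero]
      exact abs_nonneg _
  · intro q x k
    refine (s1 (Sum.inr (Sum.inr (q, k))) x).trans (err_mono X.TS X.d (a := αN (q, k)) fun v => ?_)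
    simp only [αN]
    split_ifs
    · exact le_rfl
    · rw [abs_zero]
      exact abs_nonneg _
  · intro b i j x hk
    have hUj : ∀ i', U (Fin.castSucc j) (Sdt.r b i') = ζ * X.d := fun i' =>
      if_pos (show ((Fin.castSucc j : Fin 7) : ℕ) < 6 from j.2)
    by_cases hK : X.kd b = Kd.K
    · have h1 := s3 (Fin.castSucc j) (Sdt.r b 0) x
      rw [side_eq hk (fun _ => rfl)] at h1
      have e : ((blk X.bl b).filter fun v => X.kd b = Kd.K ∨ pt v = i) =
          (blk X.bl b).filter fun v => X.kd b = Kd.K ∨ pt v = 0 := by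
        ext v
        simp only [mem_filter]
        tauto
      rw [e]
      have e2 : ∀ v, fnl X cl (Fin.castSucc j) v = X.dl cl j v := by
        intro v
        unfold fnl
        rw [dif_pos (show ((Fin.castSucc j : Fin 7) : ℕ) < 6 from j.2)]
        rfl
      simp only [e2] at h1
      exact h1.trans (le_of_eq (congrArg (Cm * ·) (hUj 0)))
    · have h1 := s3 (Fin.castSucc j) (Sdt.r b i) x
      rw [side_eq hk (fun h => absurd h hK)] at h1
      have e2 : ∀ v, fnl X cl (Fin.castSucc j) v = X.dl cl j v := by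
        intro v
        unfold fnl
        rw [dif_pos (show ((Fin.castSucc j : Fin 7) : ℕ) < 6 from j.2)]
        rfl
      simp only [e2] at h1
      exact h1.trans (le_of_eq (congrArg (Cm * ·) (hUj i)))
  · intro b i x z hk hz
    have hU6 : ∀ i', Cm * U 6 (Sdt.r b i') ≤ Cm * z := fun i' =>
      mul_le_mul_of_nonneg_left (mtd_le (bne b) hz) hCm.le
    have e2 : ∀ v, fnl X cl 6 v = X.td v := by
      intro v
      unfold fnl
      rw [dif_neg (by decide)]
    by_cases hK : X.kd b = Kd.K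
    · have h1 := s3 6 (Sdt.r b 0) x
      rw [side_eq hk (fun _ => rfl)] at h1
      have e : ((blk X.bl b).filter fun v => X.kd b = Kd.K ∨ pt v = i) =
          (blk X.bl b).filter fun v => X.kd b = Kd.K ∨ pt v = 0 := by
        ext v
        simp only [mem_filter]
        tauto
      rw [e]
      simp only [e2] at h1
      exact h1.trans (hU6 0)
    · have h1 := s3 6 (Sdt.r b i) x
      rw [side_eq hk (fun h => absurd h hK)] at h1
      simp only [e2] at h1
      exact h1.trans (hU6 i)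
  · intro b i x hN h4 h5
    have hk : X.kd b ≠ Kd.S := fun h => by rw [hN] at h; cases h
    have hK : X.kd b ≠ Kd.K := fun h => by rw [hN] at h; cases h
    have h1 := s4 (Sdt.r b i) x
    have e : X.TS.filter (fun v => sds X pt v = Sdt.r b i) =
        (blk X.bl b).filter fun v => pt v = i := by
      rw [side_eq hk (fun h => absurd h hK)]
      ext v
      simp only [mem_filter]
      tauto
    have e1 : X.TS.filter (fun v => sds X pt v = Sdt.r b i ∧ sd v = x) =
        (blk X.bl b).filter fun v => pt v = i ∧ sd v = x := by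
      rw [← filter_filter, e, filter_filter]
    rw [e1] at h1
    rw [h1]
    unfold cnt2
    rw [e, h5]
    obtain ⟨m, hm⟩ := h4
    rw [hm]
    cases x <;> simp <;> omega

end Pool.Agent.Work.MP_db9399_ts.helper6
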