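import Pool.Agent.Work.MP_db9399_ts_helper6.TsiD

/-!
# MP_db9399, TSPLIT, assembly TSI, part E: numbers, degrees, surplus (helper6)
-/

set_option autoImplicit false

namespace Pool.Agent.Work.MP_db9399_ts.helper6

open Finset Classical
open Pool.Agent.Work.MP_db9399_all (nb)
open Pool.Agent.Work.MP_db9399_clj.helper75 (OO blk nB eE cO lgF scO Shr)

universe u

/-! ### numbers -/

theorem num1 (C : ℝ) (hC : 1 ≤ C) : ∃ d0 : ℕ, ∀ d : ℕ, d0 ≤ d →
    Real.log d ^ 2 * (Real.sqrt (C * d) + C) ≤ (d : ℝ) / 80 := by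
  have h := (isLittleO_log_rpow_rpow_atTop 2 (show (0 : ℝ) < 1 / 2 by norm_num)).bound
    (show (0 : ℝ) < 1 / (160 * C) by positivity)
  have h' := tendsto_natCast_atTop_atTop (R := ℝ) |>.eventually h
  obtain ⟨d0, hd0⟩ := Filter.eventually_atTop.1 h'
  refine ⟨max d0 1, fun d hd => ?_⟩
  have hd1 : (1 : ℝ) ≤ d := by exact_mod_cast (le_max_right _ _).trans hd
  have h1 := hd0 d ((le_max_left _ _).trans hd)
  rw [Real.rpow_two, Real.norm_of_nonneg (sq_nonneg _), Real.norm_of_nonneg (by positivity),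
    ← Real.sqrt_eq_rpow] at h1
  have hs1 : (1 : ℝ) ≤ Real.sqrt d := by rwa [Real.one_le_sqrt]
  have hs : Real.sqrt (C * d) ≤ C * Real.sqrt d := by
    rw [Real.sqrt_mul (by linarith)]
    refine mul_le_mul_of_nonneg_right ?_ (Real.sqrt_nonneg _)
    rw [Real.sqrt_le_left (by linarith)]
    nlinarith
  have hsq : Real.sqrt d * Real.sqrt d = d := Real.mul_self_sqrt (by linarith)
  calc Real.log d ^ 2 * (Real.sqrt (C * d) + C)
      ≤ (1 / (160 * C) * Real.sqrt d) * (C * Real.sqrt d + C * Real.sqrt d) := by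
        refine mul_le_mul h1 ?_ (by positivity) (by positivity)
        have : C ≤ C * Real.sqrt d := by nlinarith
        linarith
    _ = (Real.sqrt d * Real.sqrt d) / 80 := by
        field_simp
        ring
    _ = (d : ℝ) / 80 := by rw [hsq]

theorem num2 (κ : ℝ) (hκ : 0 < κ) : ∃ d0 : ℕ, ∀ d : ℕ, d0 ≤ d →
    (d : ℝ) ^ (49 / 100 : ℝ) ≤ κ * d := by
  obtain ⟨n, hn⟩ := exists_nat_ge ((1 / κ) ^ 2)
  refine ⟨max n 1, fun d hd => ?_⟩
  have hd1 : (1 : ℝ) ≤ d := by exact_mod_cast (le_max_right _ _).trans hd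
  have hdn : (1 / κ) ^ 2 ≤ (d : ℝ) := hn.trans (by exact_mod_cast (le_max_left _ _).trans hd)
  have h1 : 1 / κ ≤ Real.sqrt d := Real.le_sqrt_of_sq_le hdn
  have h2 : (d : ℝ) ^ (49 / 100 : ℝ) ≤ Real.sqrt d := by
    rw [Real.sqrt_eq_rpow]
    exact Real.rpow_le_rpow_of_exponent_le hd1 (by norm_num)
  have h3 : (1 : ℝ) ≤ κ * Real.sqrt d := by
    rw [div_le_iff₀ hκ] at h1
    linarith
  have hsq : Real.sqrt d * Real.sqrt d = d := Real.mul_self_sqrt (by linarith)
  calc (d : ℝ) ^ (49 / 100 : ℝ) ≤ 1 * Real.sqrt d := by linarith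
    _ ≤ (κ * Real.sqrt d) * Real.sqrt d := mul_le_mul_of_nonneg_right h3 (Real.sqrt_nonneg _)
    _ = κ * d := by rw [mul_assoc, hsq]

theorem num3 : ∃ d0 : ℕ, ∀ d : ℕ, d0 ≤ d → 2 ≤ Real.log d := by
  have h := (Real.tendsto_log_atTop.comp (tendsto_natCast_atTop_atTop (R := ℝ))).eventually_ge_atTop
    2
  obtain ⟨d0, hd0⟩ := Filter.eventually_atTop.1 h
  exact ⟨d0, fun d hd => hd0 d hd⟩

variable {W B : Type u} [Fintype W] [Fintype B]

/-- sizes of the groups in the parts -/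
theorem gn_lem {X : Dat W B} {C : ℝ} {gr : W → Fin 3} {pt : W → Fin 2} {b : B} {a : Fin 3}
    {i : Fin 2} (hN : X.kd b ≠ Kd.K) (hC : 0 ≤ C) (hd : 0 < X.d)
    (sz : ((blk X.bl b).card : ℝ) ≤ C * X.d)
    (gz : (X.d : ℝ) / 8 ≤ (((blk X.bl b).filter fun v => gr v = a).card : ℝ))
    (num : Real.log X.d ^ 2 * (Real.sqrt (C * X.d) + C) ≤ (X.d : ℝ) / 80)
    (ht : |∑ v with X.kN v, (if X.bl v = some b ∧ gr v = a then (1 : ℝ) else 0) *
      ((if pt v = i then 1 else 0) - 1 / 2)| ≤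
      err univ X.d (fun v => if X.bl v = some b ∧ gr v = a then (1 : ℝ) else 0)) :
    (X.d : ℝ) ≤ 20 * (((blk X.bl b).filter fun v => pt v = i ∧ gr v = a).card : ℝ) := by
  have hdR : (0 : ℝ) < X.d := by exact_mod_cast hd
  set n : ℝ := (((blk X.bl b).filter fun v => gr v = a).card : ℝ) with hn
  set m : ℝ := (((blk X.bl b).filter fun v => pt v = i ∧ gr v = a).card : ℝ) with hm
  have e1 : ∑ v with X.kN v, (if X.bl v = some b ∧ gr v = a then (1 : ℝ) else 0) *
      ((if pt v = i then 1 else 0) - 1 / 2) = m - n / 2 := by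
    have h1 : ∀ v ∈ (univ : Finset W).filter (fun v => X.kN v),
        (if X.bl v = some b ∧ gr v = a then (1 : ℝ) else 0) * ((if pt v = i then 1 else 0) - 1 / 2)
        = (if v ∈ (blk X.bl b).filter (fun v => pt v = i ∧ gr v = a) then (1 : ℝ) else 0) -
          (if v ∈ (blk X.bl b).filter (fun v => gr v = a) then (1 : ℝ) else 0) / 2 := by
      intro v _
      simp only [mem_filter, blk, mem_univ, true_and]
      by_cases h1 : X.bl v = some b <;> by_cases h2 : gr v = a <;> by_cases h3 : pt v = i <;>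
        simp [h1, h2, h3] <;> norm_num
    rw [sum_congr rfl h1, sum_sub_distrib, ← sum_div]
    have h2 : ∀ S : Finset W, S ⊆ blk X.bl b → ∑ v with X.kN v,
        (if v ∈ S then (1 : ℝ) else 0) = (S.card : ℝ) := by
      intro S hS
      rw [← sum_filter, sum_const, nsmul_eq_mul, mul_one]
      congr 2
      ext v
      simp only [mem_filter, mem_univ, true_and]
      refine ⟨fun h => h.2, fun h => ⟨?_, h⟩⟩
      have := hS h
      simp only [blk, mem_filter, mem_univ, true_and] at this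
      exact ⟨b, this, hN⟩
    rw [h2 _ (filter_subset _ _), h2 _ (filter_subset _ _)]
  rw [e1] at ht
  have hnC : n ≤ C * X.d := by
    refine le_trans ?_ sz
    rw [hn]
    exact_mod_cast card_le_card (filter_subset _ _)
  have hn0 : 0 ≤ n := Nat.cast_nonneg _
  have e2 : err univ X.d (fun v => if X.bl v = some b ∧ gr v = a then (1 : ℝ) else 0) =
      Real.log X.d ^ 2 * (Real.sqrt n + n / X.d) := by
    unfold err
    have h3 : ∑ v, (if X.bl v = some b ∧ gr v = a then (1 : ℝ) else 0) = n := by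
      rw [← sum_filter, sum_const, nsmul_eq_mul, mul_one, hn]
      congr 2
      ext v
      simp [blk]
    have h4 : ∑ v, (if X.bl v = some b ∧ gr v = a then (1 : ℝ) else 0) ^ 2 = n := by
      rw [← h3]
      refine sum_congr rfl fun v _ => ?_
      split_ifs <;> norm_num
    have h5 : ∑ v, |(if X.bl v = some b ∧ gr v = a then (1 : ℝ) else 0)| = n := by
      rw [← h3]
      refine sum_congr rfl fun v _ => ?_
      split_ifs <;> norm_num
    rw [h4, h5]
  rw [e2] at ht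
  have h6 : Real.log X.d ^ 2 * (Real.sqrt n + n / X.d) ≤ (X.d : ℝ) / 80 := by
    refine le_trans (mul_le_mul_of_nonneg_left (add_le_add (Real.sqrt_le_sqrt hnC) ?_)
      (sq_nonneg _)) num
    rw [div_le_iff₀ hdR]
    exact hnC
  have h7 := (abs_le.1 (ht.trans h6)).1
  linarith

/-! ### degrees -/

theorem degs {X : Dat W B} (reg : ∀ v, (nb X.G v).card = X.d)
    (bk : ∀ v w, X.Bk.Adj v w → ∃ b, X.bl v = some b ∧ X.bl w = some (X.op b))
    {D : Fin 6 → ℕ} (hD : ∑ j, D j = X.d) {cl cl' co : W → W → Fin 6} {R : SimpleGraph W}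
    {MO MI M5 : Finset W} (hR : R ≤ X.FO)
    (a1 : ∀ x, X.h1 x → ∀ j, X.dO co R j x + X.dl cl j x = D j ∨
      X.dO co R j x + X.dl cl j x + 1 = D j)
    (a2 : ∀ x, X.h1 x → ∀ j, j ≠ 5 → x ∉ MO → x ∉ MI → X.dO co R j x + X.dl cl j x = D j)
    (a3 : ∀ x, X.h1 x → x ∉ M5 → X.dO co R 5 x + X.dl cl 5 x = D 5)
    (a4 : ∀ x, (X.h1 x → x ∉ MO ∧ x ∉ MI) → (nb R x).card ≤ 1 ∧ (x ∉ M5 → (nb R x).card = 0))
    (b1 : ∀ x, X.h1 x → ∀ j, X.dl cl' j x = X.dl cl j x)
    (b2 : ∀ x j, X.fr x → j ≠ 5 → X.dO co R j x + X.dl cl' j x = D j) (x : W)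
    (hx : X.bl x = none) (j : Fin 6) :
    X.dO co R j x + X.dl cl' j x = D j ∨ (X.dO co R j x + X.dl cl' j x + 1 = D j ∧
      (j ≠ 5 → x ∈ MO ∪ MI) ∧ (j = 5 → x ∈ M5)) := by
  by_cases h1 : X.h1 x
  · rw [b1 x h1 j]
    by_cases h5 : j = 5
    · subst h5
      by_cases hM : x ∈ M5
      · rcases a1 x h1 5 with h | h
        · exact Or.inl h
        · exact Or.inr ⟨h, fun h' => absurd rfl h', fun _ => hM⟩
      · exact Or.inl (a3 x h1 hM)
    · by_cases hM : x ∈ MO ∪ MI
      · rcases a1 x h1 j with h | h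
        · exact Or.inl h
        · exact Or.inr ⟨h, fun _ => hM, fun h' => absurd h' h5⟩
      · rw [mem_union, not_or] at hM
        exact Or.inl (a2 x h1 j h5 hM.1 hM.2)
  · have hfr : X.fr x := by
      refine ⟨hx, ?_⟩
      by_contra h
      exact h1 ⟨hx, not_lt.1 h⟩
    by_cases h5 : j = 5
    · subst h5
      have s1 := sum_dO co R hR x
      have s2 := sum_dl bk cl' hx
      have s3 := nO_lg reg hx
      have s4 : ∑ j, (X.dO co R j x + X.dl cl' j x) + (nb R x).card = ∑ j, D j := by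
        rw [sum_add_distrib, hD, ← s3, ← s1, ← s2]
        ring
      rw [Fin.sum_univ_six, Fin.sum_univ_six] at s4
      have t0 := b2 x 0 hfr (by decide)
      have t1 := b2 x 1 hfr (by decide)
      have t2 := b2 x 2 hfr (by decide)
      have t3 := b2 x 3 hfr (by decide)
      have t4 := b2 x 4 hfr (by decide)
      have hRx := a4 x (fun h => absurd h h1)
      by_cases hM : x ∈ M5
      · have := hRx.1
        by_cases h0 : (nb R x).card = 0
        · left
          omega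
        · right
          exact ⟨by omega, fun h' => absurd rfl h', fun _ => hM⟩
      · have := hRx.2 hM
        left
        omega
    · exact Or.inl (b2 x j hfr h5)

/-- surplus at the vertices of type `fr` -/
theorem surp {X : Dat W B} (reg : ∀ v, (nb X.G v).card = X.d) {x : W} (hx : X.bl x = none)
    {σ K2 K nt : ℝ} {dO dl D : ℕ} (hD : (D : ℝ) = σ * X.d) (hK : K2 = K + 6)
    (h1 : |(dl : ℝ) - (σ * X.lg x + (K2 - nt))| ≤ K + 1)
    (h2 : |(dO : ℝ) - (σ * X.nO x + nt)| ≤ 5) :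
    D ≤ dO + dl ∧ ((dO + dl - D : ℕ) : ℝ) ≤ 2 * K2 := by
  have h3 := nO_lg reg hx
  have h4 : X.nO x + X.lg x = X.d := by
    unfold Dat.nO Dat.lg
    exact_mod_cast h3
  have h5 : σ * X.nO x + σ * X.lg x = D := by rw [hD, ← h4]; ring
  rw [abs_le] at h1 h2
  have h6 : (D : ℝ) ≤ (dO : ℝ) + dl := by linarith
  have h6' : D ≤ dO + dl := by exact_mod_cast h6
  refine ⟨h6', ?_⟩
  rw [Nat.cast_sub h6']
  push_cast
  linarith

end Pool.Agent.Work.MP_db9399_ts.helper6
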