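import Pool.Agent.Work.MP_db9399_ts_helper6.TsiE

/-!
# MP_db9399, TSPLIT, assembly TSI, part F: small lemmas (helper6)
-/

set_option autoImplicit false

namespace Pool.Agent.Work.MP_db9399_ts.helper6

open Finset Classical
open Pool.Agent.Work.MP_db9399_all (nb)
open Pool.Agent.Work.MP_db9399_clj.helper75 (OO blk nB eE cO lgF scO Shr)

universe u

theorem shc {πk : ℝ} {d : ℕ} {D : Fin 6 → ℕ} {σ : Fin 6 → ℝ} (h1 : 1 / 4 ≤ πk) (h2 : πk < 1 / 3)
    (h : ShC πk d D σ) (hd : 0 < d) : (∑ j, σ j = 1) ∧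
    (∀ j, (1 - 3 * πk) / 200 ≤ σ j ∧ σ j ≤ 1) ∧
    ∀ k : ℕ, 400 / (1 - 3 * πk) ≤ (2 : ℝ) ^ k → (∀ j, j ≠ 5 → 2 ≤ σ j * 2 ^ k) ∧
      11 ≤ σ 5 * 2 ^ k := by
  have hdR : (0 : ℝ) < d := by exact_mod_cast hd
  obtain ⟨δ, hδ⟩ : ∃ δ, δ = 1 - 3 * πk := ⟨_, rfl⟩
  have hδ0 : 0 < δ := by rw [hδ]; linarith
  have hδ4 : δ ≤ 1 / 4 := by rw [hδ]; linarith
  have hsum : ∑ j, σ j = 1 := by
    have e : ∑ j, (D j : ℝ) = d := by exact_mod_cast h.sum
    have e2 : ∑ j, (D j : ℝ) = (∑ j, σ j) * d := by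
      rw [sum_mul]
      exact sum_congr rfl fun j _ => h.s j
    rw [e] at e2
    field_simp at e2
    linarith
  have a0 := abs_le.1 (h.C 0)
  have a1 := abs_le.1 (h.C 1)
  have a2 := abs_le.1 (h.C 2)
  have a3 := abs_le.1 (h.Q 0)
  have a4 := abs_le.1 (h.Q 1)
  have c0 : cC 0 = 0 := rfl
  have c1 : cC 1 = 1 := rfl
  have c2 : cC 2 = 2 := rfl
  have c3 : cQ 0 = 3 := rfl
  have c4 : cQ 1 = 4 := rfl
  rw [c0, ← hδ] at a0
  rw [c1, ← hδ] at a1
  rw [c2, ← hδ] at a2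
  rw [c3, ← hδ] at a3
  rw [c4, ← hδ] at a4
  have hs : σ 0 + σ 1 + σ 2 + σ 3 + σ 4 + σ 5 = 1 := by rw [← hsum, Fin.sum_univ_six]
  have b0 : 99 / 10000 * δ ≤ σ 0 := by linarith [a0.1]
  have b1 : 99 / 10000 * δ ≤ σ 1 := by linarith [a1.1]
  have b2 : 99 / 10000 * δ ≤ σ 2 := by linarith [a2.1]
  have b3 : 99 / 10000 * δ ≤ σ 3 := by linarith [a3.1]
  have b4 : 99 / 10000 * δ ≤ σ 4 := by linarith [a4.1]
  have b5 : 97 / 100 * δ ≤ σ 5 := by linarith [a0.2, a1.2, a2.2, a3.2, a4.2]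
  refine ⟨hsum, ?_, ?_⟩
  · intro j
    rw [← hδ]
    fin_cases j
    · exact ⟨by simp only [Fin.zero_eta]; linarith, by simp only [Fin.zero_eta]; linarith⟩
    · exact ⟨by simp only [Fin.mk_one]; linarith, by simp only [Fin.mk_one]; linarith⟩
    · exact ⟨by simp only [Fin.reduceFinMk]; linarith, by simp only [Fin.reduceFinMk]; linarith⟩
    · exact ⟨by simp only [Fin.reduceFinMk]; linarith, by simp only [Fin.reduceFinMk]; linarith⟩
    · exact ⟨by simp only [Fin.reduceFinMk]; linarith, by simp only [Fin.reduceFinMk]; linarith⟩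
    · exact ⟨by simp only [Fin.reduceFinMk]; linarith, by simp only [Fin.reduceFinMk]; linarith⟩
  · intro k hk
    rw [← hδ, div_le_iff₀ hδ0] at hk
    have hk' : 400 ≤ δ * 2 ^ k := by linarith
    have hp : (0 : ℝ) < 2 ^ k := by positivity
    have e : ∀ s : ℝ, 99 / 10000 * δ ≤ s → 2 ≤ s * 2 ^ k := by
      intro s hs
      have := mul_le_mul_of_nonneg_right hs hp.le
      nlinarith
    refine ⟨?_, ?_⟩
    · intro j hj
      fin_cases j
      · exact e _ b0
      · exact e _ b1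
      · exact e _ b2
      · exact e _ b3
      · exact e _ b4
      · exact absurd rfl hj
    · have := mul_le_mul_of_nonneg_right b5 hp.le
      nlinarith

variable {W B : Type u} [Fintype W] [Fintype B]

/-- the sums of the thin degrees of the two sides of a piece of type B are equal -/
theorem td_sum {X : Dat W B} (reg : ∀ v, (nb X.G v).card = X.d) (BG : X.Bk ≤ X.G)
    (bk : ∀ v w, X.Bk.Adj v w → ∃ b, X.bl v = some b ∧ X.bl w = some (X.op b))
    (opp : ∀ b, X.op (X.op b) = b) {b : B}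
    (hc : (blk X.bl (X.op b)).card = (blk X.bl b).card) :
    ∑ v ∈ blk X.bl (X.op b), X.td v = ∑ v ∈ blk X.bl b, X.td v := by
  have h1 : ∀ v, X.td v = (X.d : ℝ) - ((nb X.Bk v).card : ℝ) := by
    intro v
    unfold Dat.td
    have e : nb X.Th v = nb X.G v \ nb X.Bk v := by
      ext w
      simp only [mem_sdiff, mnb, Dat.Th, SimpleGraph.sdiff_adj]
    have e2 : nb X.Bk v ⊆ nb X.G v := fun w hw => mnb.2 (BG (mnb.1 hw))
    rw [e, card_sdiff_of_subset e2, Nat.cast_sub (card_le_card e2), reg]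
  have h2 : ∀ b, ∑ v ∈ blk X.bl b, ((nb X.Bk v).card : ℝ) =
      ∑ v ∈ blk X.bl b, ∑ w ∈ blk X.bl (X.op b), (if X.Bk.Adj v w then (1 : ℝ) else 0) := by
    intro b
    refine sum_congr rfl fun v hv => ?_
    rw [← sum_filter, sum_const, nsmul_eq_mul, mul_one]
    congr 2
    ext w
    simp only [blk, mem_filter, mem_univ, true_and] at hv ⊢
    rw [mnb]
    refine ⟨fun h => ⟨?_, h⟩, fun h => h.2⟩
    obtain ⟨b', hb', hw⟩ := bk _ _ h
    rw [hv] at hb'
    rw [Option.some.inj hb']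
    exact hw
  have h3 : ∑ v ∈ blk X.bl (X.op b), ((nb X.Bk v).card : ℝ) =
      ∑ v ∈ blk X.bl b, ((nb X.Bk v).card : ℝ) := by
    rw [h2, h2, opp, sum_comm]
    refine sum_congr rfl fun v _ => sum_congr rfl fun w _ => ?_
    simp only [X.Bk.adj_comm v w]
  simp only [h1, sum_sub_distrib, sum_const, nsmul_eq_mul]
  rw [h3, hc]

/-- no swap at the vertices of type `h1` -/
theorem dl_h1 {X : Dat W B} {cl cl' : W → W → Fin 6}
    (ch : ∀ v w, cl' v w ≠ cl v w → cl' v w = 5 ∧ ((X.fr v ∧ X.bl w ≠ none) ∨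
      (X.fr w ∧ X.bl v ≠ none))) {x : W} (hx : X.h1 x) (j : Fin 6) :
    X.dl cl' j x = X.dl cl j x := by
  unfold Dat.dl
  congr 1
  ext w
  simp only [mem_filter, mem_univ, true_and]
  have h : cl' x w = cl x w := by
    by_contra h
    rcases (ch x w h).2 with h' | h'
    · exact absurd h'.1.2 (not_lt.2 hx.2)
    · exact h'.2 hx.1
  rw [h]

theorem nt_le {X : Dat W B} {k : ℕ} {σ : Fin 6 → ℝ} {bs fl : Fin 6 → Finset ℕ}
    {ρ ρ1 ρ5 c2 K1 : ℝ} {Y : Arcs W} {MO MI M5 : Finset W}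
    (h : Oob X k σ bs fl ρ ρ1 ρ5 c2 K1 Y MO MI M5) {j : Fin 6} (hj : j ≠ 5) (x : W) :
    |Y.nt k σ bs fl j x| ≤ 4 * (X.d : ℝ) ^ (49 / 100 : ℝ) := by
  unfold Arcs.nt
  rw [Fintype.sum_bool]
  have h1 := abs_le.1 (h.out.nz x true j hj)
  have h2 := abs_le.1 (h.out.nz x false j hj)
  have h3 := abs_le.1 (h.inn.nz x true j hj)
  have h4 := abs_le.1 (h.inn.nz x false j hj)
  rw [abs_le]
  constructor <;> linarith [h1.1, h1.2, h2.1, h2.2, h3.1, h3.2, h4.1, h4.2]

/-- the family of the indicators of the groups of the blocks -/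
theorem grp_fam {X : Dat W B} {C : ℝ} {gr : W → Fin 3} (hC : C ≤ X.d) (hd : 1 ≤ X.d)
    (sz : ∀ b, ((blk X.bl b).card : ℝ) ≤ C * X.d) :
    Fam (fun (q : B × Fin 3) v => if X.bl v = some q.1 ∧ gr v = q.2 then (1 : ℝ) else 0) X.d 2 := by
  have hdR : (1 : ℝ) ≤ X.d := by exact_mod_cast hd
  constructor
  · intro q
    have h1 : ((univ.filter fun v => (if X.bl v = some q.1 ∧ gr v = q.2 then (1 : ℝ) else 0) ≠
        0).card : ℝ) ≤ ((blk X.bl q.1).card : ℝ) := by
      norm_cast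
      refine card_le_card fun v hv => ?_
      simp only [mem_filter, mem_univ, true_and, ne_eq, ite_eq_right_iff, Classical.not_imp] at hv
      simp only [blk, mem_filter, mem_univ, true_and]
      exact hv.1.1
    rw [Real.rpow_two]
    have h2 := sz q.1
    nlinarith
  · intro v
    have h1 : (univ.filter fun q : B × Fin 3 => (if X.bl v = some q.1 ∧ gr v = q.2 then (1 : ℝ)
        else 0) ≠ 0).card ≤ 1 := by
      rw [card_le_one]
      intro q hq q' hq'
      simp only [mem_filter, mem_univ, true_and, ne_eq, ite_eq_right_iff, Classical.not_imp] at hq hq'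
      refine Prod.ext ?_ (hq.1.2.symm.trans hq'.1.2)
      exact Option.some.inj (hq.1.1.symm.trans hq'.1.1)
    have h2 : ((univ.filter fun q : B × Fin 3 => (if X.bl v = some q.1 ∧ gr v = q.2 then (1 : ℝ)
        else 0) ≠ 0).card : ℝ) ≤ 1 := by exact_mod_cast h1
    rw [Real.rpow_two]
    nlinarith

/-- the offset `0` -/
theorem off_zero {X : Dat W B} {c ε : ℝ} (hε : 0 ≤ ε) : OffH X c ε fun _ => 0 where
  bd x := by
    rw [abs_zero]
    positivity
  r1 b := by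
    simp only [zero_mul, sum_const_zero, abs_zero]
    positivity
  r2 b := by
    simp only [zero_mul, sum_const_zero, abs_zero]
    positivity

end Pool.Agent.Work.MP_db9399_ts.helper6
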