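import Pool.Agent.Work.MP_db9399_ts_helper6.TsiF

/-!
# MP_db9399, TSPLIT, assembly TSI, part G: the labels (helper6)
-/

set_option autoImplicit false

namespace Pool.Agent.Work.MP_db9399_ts.helper6

open Finset Classical
open Pool.Agent.Work.MP_db9399_all (nb)
open Pool.Agent.Work.MP_db9399_clj.helper75 (OO blk nB eE cO lgF scO Shr)

universe u

variable {W B : Type u} [Fintype W] [Fintype B]

theorem lbo_lem {τ : Type u} {X : Dat W B} {C1 C2 : ℝ} {α : τ → W → ℝ} {th : W → Fin 3}
    {pt : W → Fin 2} {sd : W → Bool} (reg : ∀ v, (nb X.G v).card = X.d) (BG : X.Bk ≤ X.G)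
    (bk : ∀ v w, X.Bk.Adj v w → ∃ b, X.bl v = some b ∧ X.bl w = some (X.op b))
    (opp : ∀ b, X.op (X.op b) = b) (opk : ∀ b, X.kd (X.op b) = X.kd b)
    (opS : ∀ b, X.kd b = Kd.S → (blk X.bl (X.op b)).card = (blk X.bl b).card)
    (h4 : ∀ b, X.kd b = Kd.N → 4 ∣ (blk X.bl b).card) (hlog : 2 ≤ Real.log X.d)
    (hC1 : 0 ≤ C1) (hC2 : 0 ≤ C2) (bne : ∀ b, (blk X.bl b).Nonempty)
    (cN : ∀ b k, X.kd b ≠ Kd.K → ((blk X.bl b).filter fun v => pt v = k).card =
      cc2 (blk X.bl b).card k)
    (td : ∀ b i (z : ℝ), X.kd b ≠ Kd.K → (∀ v, X.bl v = some b → X.td v ≤ z) →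
      |∑ v ∈ (blk X.bl b).filter (fun v => pt v = i), X.td v - (∑ v ∈ blk X.bl b, X.td v) / 2| ≤
        C1 * z)
    (tK : ∀ q k, |∑ v with X.kK v, α q v * ((if th v = k then 1 else 0) - 1 / 3)| ≤
      err univ X.d (α q))
    (tN : ∀ q k, |∑ v with X.kN v, (if X.ty (fun κ => κ = Kd.N) v then α q v else 0) *
      ((if pt v = k then 1 else 0) - 1 / 2)| ≤ err univ X.d (α q))
    (tS : ∀ q k, |∑ v with X.kN v, (if X.ty (fun κ => κ = Kd.S) v then α q v else 0) *
      ((if pt v = k then 1 else 0) - 1 / 2)| ≤ err univ X.d (α q))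
    (sK : ∀ q x k, |∑ v ∈ X.TS, (if X.kK v ∧ th v = k then α q v else 0) *
      ((if sd v = x then 1 else 0) - 1 / 2)| ≤ err univ X.d (α q))
    (sN : ∀ q x k, |∑ v ∈ X.TS, (if X.ty (fun κ => κ = Kd.N) v ∧ pt v = k then α q v else 0) *
      ((if sd v = x then 1 else 0) - 1 / 2)| ≤ err univ X.d (α q))
    (sT : ∀ b i x (z : ℝ), X.kd b ≠ Kd.S → (∀ v, X.bl v = some b → X.td v ≤ z) →
      |∑ v ∈ (blk X.bl b).filter (fun v => X.kd b = Kd.K ∨ pt v = i),
        X.td v * ((if sd v = x then 1 else 0) - 1 / 2)| ≤ C2 * z)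
    (s4 : ∀ b i x, X.kd b = Kd.N → 4 ∣ (blk X.bl b).card →
      ((blk X.bl b).filter fun v => pt v = i).card = (blk X.bl b).card / 2 →
      4 * ((blk X.bl b).filter fun v => pt v = i ∧ sd v = x).card = (blk X.bl b).card) :
    Lbo X (2 * (C1 + C2)) α th pt sd := by
  have hz0 : ∀ b (z : ℝ), (∀ v, X.bl v = some b → X.td v ≤ z) → 0 ≤ z := by
    intro b z hz
    obtain ⟨v, hv⟩ := bne b
    have h1 := hz v (by simpa [blk] using hv)
    have h2 : 0 ≤ X.td v := by unfold Dat.td; positivity
    linarith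
  have herr : ∀ q, 2 * err univ X.d (α q) ≤ Real.log X.d ^ 3 *
      (Real.sqrt (∑ v, α q v ^ 2) + (∑ v, |α q v|) / X.d) := by
    intro q
    have h0 : 0 ≤ Real.sqrt (∑ v, α q v ^ 2) + (∑ v, |α q v|) / X.d := by
      have : 0 ≤ ∑ v, |α q v| := sum_nonneg fun _ _ => abs_nonneg _
      positivity
    unfold err
    have h1 : Real.log X.d ^ 3 = Real.log X.d * Real.log X.d ^ 2 := by ring
    rw [h1, mul_assoc (Real.log X.d)]
    exact mul_le_mul_of_nonneg_right hlog (mul_nonneg (sq_nonneg _) h0)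
  have hKS : ∀ v, X.kK v → v ∈ X.TS := by
    rintro v ⟨b, hb, hk⟩
    exact mTS.2 ⟨b, hb, fun h => by rw [hk] at h; cases h⟩
  have hNS : ∀ v, X.ty (fun κ => κ = Kd.N) v → v ∈ X.TS := by
    rintro v ⟨b, hb, hk⟩
    exact mTS.2 ⟨b, hb, fun h => by rw [hk] at h; cases h⟩
  have hNN : ∀ v, X.ty (fun κ => κ = Kd.N) v → X.kN v := by
    rintro v ⟨b, hb, hk⟩
    exact ⟨b, hb, fun h => by rw [hk] at h; cases h⟩
  have hSN : ∀ v, X.ty (fun κ => κ = Kd.S) v → X.kN v := by
    rintro v ⟨b, hb, hk⟩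
    exact ⟨b, hb, fun h => by rw [hk] at h; cases h⟩
  have herr0 : ∀ q, 0 ≤ err univ X.d (α q) := fun q => err_nonneg _ _ _
  refine ⟨?_, ?_, ?_, ?_, ?_, ?_, ?_, ?_⟩
  · intro b i s hb
    have hK : X.kd b ≠ Kd.K := fun h => by rw [hb] at h; cases h
    exact s4 b i s hb (h4 b hb) (by rw [cN b i hK]; exact (cc2_four (h4 b hb) i).1)
  · intro b i hb
    have hK : X.kd b ≠ Kd.K := fun h => by rw [hb] at h; cases h
    have hK' : X.kd (X.op b) ≠ Kd.K := by rw [opk]; exact hK
    rw [cN _ _ hK, cN _ _ hK', opS b hb]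
  · intro b i hb
    have hK : X.kd b ≠ Kd.K := fun h => by rw [hb] at h; cases h
    rw [cN _ _ hK, cN _ _ hK]
    exact cc2_le _ _
  · intro q k s
    refine le_trans ?_ (herr q)
    have e : (1 / 6 : ℝ) = 1 / 3 / 2 := by norm_num
    rw [e, lab2]
    have e1 : ∑ v with X.kK v, (if th v = k then α q v else 0) * ((if sd v = s then 1 else 0) -
        1 / 2) = ∑ v ∈ X.TS, (if X.kK v ∧ th v = k then α q v else 0) *
          ((if sd v = s then 1 else 0) - 1 / 2) := by
      have : X.TS.filter (fun v => X.kK v) = univ.filter (fun v => X.kK v) := by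
        ext v
        simp only [mem_filter, mem_univ, true_and]
        exact ⟨fun h => h.2, fun h => ⟨hKS v h, h⟩⟩
      rw [← this, sum_filter]
      refine sum_congr rfl fun v _ => ?_
      by_cases hv : X.kK v <;> by_cases hv' : th v = k <;> simp [hv, hv']
    rw [e1]
    have h1 := abs_le.1 (sK q s k)
    have h2 := abs_le.1 (tK q k)
    have h3 := herr0 q
    rw [abs_le]
    constructor <;> linarith [h1.1, h1.2, h2.1, h2.2]
  · intro q k s
    refine le_trans ?_ (herr q)
    have e : (1 / 4 : ℝ) = 1 / 2 / 2 := by norm_num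
    rw [e, lab2]
    have e1 : ∑ v with X.ty (fun κ => κ = Kd.N) v, (if pt v = k then α q v else 0) *
        ((if sd v = s then 1 else 0) - 1 / 2) =
        ∑ v ∈ X.TS, (if X.ty (fun κ => κ = Kd.N) v ∧ pt v = k then α q v else 0) *
          ((if sd v = s then 1 else 0) - 1 / 2) := by
      have : X.TS.filter (fun v => X.ty (fun κ => κ = Kd.N) v) =
          univ.filter (fun v => X.ty (fun κ => κ = Kd.N) v) := by
        ext v
        simp only [mem_filter, mem_univ, true_and]
        exact ⟨fun h => h.2, fun h => ⟨hNS v h, h⟩⟩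
      rw [← this, sum_filter]
      refine sum_congr rfl fun v _ => ?_
      by_cases hv : X.ty (fun κ => κ = Kd.N) v <;> by_cases hv' : pt v = k <;> simp [hv, hv']
    have e2 : ∑ v with X.ty (fun κ => κ = Kd.N) v, α q v * ((if pt v = k then 1 else 0) - 1 / 2) =
        ∑ v with X.kN v, (if X.ty (fun κ => κ = Kd.N) v then α q v else 0) *
          ((if pt v = k then 1 else 0) - 1 / 2) := by
      have : (univ.filter fun v => X.kN v).filter (fun v => X.ty (fun κ => κ = Kd.N) v) =
          univ.filter (fun v => X.ty (fun κ => κ = Kd.N) v) := by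
        ext v
        simp only [mem_filter, mem_univ, true_and]
        exact ⟨fun h => h.2, fun h => ⟨hNN v h, h⟩⟩
      rw [← this, sum_filter]
      refine sum_congr rfl fun v _ => ?_
      by_cases hv : X.ty (fun κ => κ = Kd.N) v <;> simp [hv]
    rw [e1, e2]
    have h1 := abs_le.1 (sN q s k)
    have h2 := abs_le.1 (tN q k)
    have h3 := herr0 q
    rw [abs_le]
    constructor <;> linarith [h1.1, h1.2, h2.1, h2.2]
  · intro q k
    refine le_trans ?_ (herr q)
    have e2 : ∑ v with X.ty (fun κ => κ = Kd.S) v, α q v * ((if pt v = k then 1 else 0) - 1 / 2) =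
        ∑ v with X.kN v, (if X.ty (fun κ => κ = Kd.S) v then α q v else 0) *
          ((if pt v = k then 1 else 0) - 1 / 2) := by
      have : (univ.filter fun v => X.kN v).filter (fun v => X.ty (fun κ => κ = Kd.S) v) =
          univ.filter (fun v => X.ty (fun κ => κ = Kd.S) v) := by
        ext v
        simp only [mem_filter, mem_univ, true_and]
        exact ⟨fun h => h.2, fun h => ⟨hSN v h, h⟩⟩
      rw [← this, sum_filter]
      refine sum_congr rfl fun v _ => ?_
      by_cases hv : X.ty (fun κ => κ = Kd.S) v <;> simp [hv]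
    rw [e2]
    have h2 := tS q k
    have h3 := herr0 q
    linarith
  · intro b i z hb hz
    have hz0' := mul_nonneg hC1 (hz0 b z hz)
    have hS : X.kd b ≠ Kd.S := fun h => by rw [hb] at h; cases h
    have hK : X.kd b ≠ Kd.K := fun h => by rw [hb] at h; cases h
    have e : ((blk X.bl b).filter fun v => X.kd b = Kd.K ∨ pt v = i) =
        (blk X.bl b).filter fun v => pt v = i := by
      ext v
      simp only [mem_filter]
      tauto
    have h1 := sT b i true z hS hz
    have h2 := sT b i false z hS hz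
    rw [e] at h1 h2
    have e3 : ∀ s : Bool, ∑ v ∈ (blk X.bl b).filter (fun v => pt v = i ∧ sd v = s), X.td v =
        ∑ v ∈ (blk X.bl b).filter (fun v => pt v = i), X.td v * (if sd v = s then 1 else 0) := by
      intro s
      rw [← filter_filter, sum_filter (fun v => sd v = s)]
      refine sum_congr rfl fun v _ => ?_
      split_ifs <;> simp
    have e4 : ∀ s : Bool, ∑ v ∈ (blk X.bl b).filter (fun v => pt v = i ∧ sd v = s), X.td v =
        ∑ v ∈ (blk X.bl b).filter (fun v => pt v = i),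
          X.td v * ((if sd v = s then 1 else 0) - 1 / 2) +
          (∑ v ∈ (blk X.bl b).filter (fun v => pt v = i), X.td v) / 2 := by
      intro s
      rw [e3, sum_div, ← sum_add_distrib]
      refine sum_congr rfl fun v _ => ?_
      ring
    rw [e4 false, e4 true]
    have h1 := abs_le.1 h1
    have h2 := abs_le.1 h2
    rw [abs_le]
    constructor <;> linarith [h1.1, h1.2, h2.1, h2.2]
  · intro b i z hb hz
    have hK : X.kd b ≠ Kd.K := fun h => by rw [hb] at h; cases h
    have hK' : X.kd (X.op b) ≠ Kd.K := by rw [opk]; exact hK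
    have hz0' := mul_nonneg hC2 (hz0 b z fun v hv => hz v (Or.inl hv))
    have h1 := abs_le.1 (td b i z hK fun v hv => hz v (Or.inl hv))
    have h2 := td (X.op b) i z hK' fun v hv => hz v (Or.inr hv)
    rw [td_sum reg BG bk opp (opS b hb)] at h2
    have h2 := abs_le.1 h2
    rw [abs_le]
    constructor <;> linarith [h1.1, h1.2, h2.1, h2.2]

end Pool.Agent.Work.MP_db9399_ts.helper6
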